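import Mathlib

open FirstOrder FirstOrder.Language

namespace Pool.Agent.Results.MP_76ae7e_lc.NotInherited

/-- Relation symbols: countably many unary ones and two binary ones. -/
inductive Rel : ℕ → Type
  | un (k : ℕ) : Rel 1
  | bi (c : Bool) : Rel 2

/-- The language: countably many unary and two binary relation symbols. -/
def L : Language := ⟨fun _ => Empty, Rel⟩

instance : IsRelational L := fun _ => inferInstanceAs (IsEmpty Empty)

abbrev un (k : ℕ) : L.Relations 1 := Rel.un k
abbrev bi (c : Bool) : L.Relations 2 := Rel.bi c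

/-- Number of a variable (terms of the language are variables):
free variable `a` gets `2 * encode a`, bound variable `i` gets `2 * i + 1`. -/
def vcode {α : Type} [Encodable α] {n : ℕ} : L.Term (α ⊕ Fin n) → ℕ
  | Term.var (Sum.inl a) => 2 * Encodable.encode a
  | Term.var (Sum.inr i) => 2 * (i : ℕ) + 1
  | Term.func _ _ => 0

/-- Goedel number of a relation symbol applied to terms. -/
def rcode {α : Type} [Encodable α] {n : ℕ} : ∀ {l : ℕ}, Rel l → (Fin l → L.Term (α ⊕ Fin n)) → ℕ
  | _, Rel.un k, ts => Nat.pair 2 (Nat.pair k (vcode (ts 0)))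
  | _, Rel.bi c, ts => Nat.pair 3 (Nat.pair c.toNat (Nat.pair (vcode (ts 0)) (vcode (ts 1))))

/-- Goedel number of a formula. -/
def code {α : Type} [Encodable α] : ∀ {n : ℕ}, L.BoundedFormula α n → ℕ
  | _, .falsum => Nat.pair 0 0
  | _, .equal t₁ t₂ => Nat.pair 1 (Nat.pair (vcode t₁) (vcode t₂))
  | _, .rel R ts => rcode R ts
  | _, .imp φ ψ => Nat.pair 4 (Nat.pair (code φ) (code ψ))
  | _, .all φ => Nat.pair 5 (code φ)

/-- A set of formulas is computable: its set of Goedel numbers is computable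
(as a subset of the Goedel numbers of all formulas). -/
def ComputableSet {α : Type} [Encodable α] (S : Set (L.Formula α)) : Prop :=
  ∃ f : ℕ → Bool, Computable f ∧ ∀ φ : L.Formula α, f (code φ) = true ↔ φ ∈ S

/-- The theory is decidable: the set of its consequences is computable. -/
def DecidableTheory (T : L.Theory) : Prop :=
  ComputableSet (α := Empty) {φ : L.Sentence | T ⊨ᵇ φ}

/-- Strong constructivization: a surjection from the natural numbers
for which the full elementary diagram is computable. -/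
def StrongConstr {M : Type} [L.Structure M] (ν : ℕ → M) : Prop :=
  Function.Surjective ν ∧ ComputableSet {φ : L.Formula ℕ | φ.Realize ν}

/-- Autoequivalence of two numberings: computably isomorphic. -/
def AutoEquivalent {M : Type} [L.Structure M] (ν μ : ℕ → M) : Prop :=
  ∃ (g : M ≃[L] M) (f : ℕ → ℕ), Computable f ∧ ∀ n, g (ν n) = μ (f n)

/-- Strongly autostable: any two strong constructivizations are autoequivalent. -/
def StronglyAutostable (M : Type) [L.Structure M] : Prop :=
  ∀ ν μ : ℕ → M, StrongConstr ν → StrongConstr μ → AutoEquivalent ν μ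

/-- Prime model of a theory: a countable model that embeds elementarily into every model. -/
def IsPrimeModel (T : L.Theory) (P : Type) [L.Structure P] : Prop :=
  Nonempty P ∧ Countable P ∧ P ⊨ T ∧
    ∀ (N : Type) [L.Structure N] [Nonempty N], N ⊨ T → Nonempty (P ↪ₑ[L] N)

/-- Saturation of a countable model: every set of formulas in one variable with
finitely many parameters, all of whose finite subsets are realized, is realized. -/
def IsSaturated (M : Type) [L.Structure M] : Prop :=
  ∀ (m : ℕ) (a : Fin m → M) (p : Set (L.Formula (Fin m ⊕ Unit))),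
    (∀ q : Finset (L.Formula (Fin m ⊕ Unit)), (q : Set (L.Formula (Fin m ⊕ Unit))) ⊆ p →
      ∃ b : M, ∀ φ ∈ q, φ.Realize (Sum.elim a fun _ => b)) →
    ∃ b : M, ∀ φ ∈ p, φ.Realize (Sum.elim a fun _ => b)

/-- Uncountably categorical: exactly one model up to isomorphism in each uncountable
cardinality. -/
def UncountablyCategorical (T : L.Theory) : Prop :=
  ∀ κ : Cardinal.{0}, Cardinal.aleph0 < κ →
    κ.Categorical T ∧ ∃ M : T.ModelType, Cardinal.mk M = κ

/-! ## The structures -/

/-- The domain `D`. -/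
abbrev D (E : Type) := ℕ ⊕ E

/-- The universe: `D` together with a two-sheeted cover of `D × D`. -/
abbrev X (E : Type) := D E ⊕ (D E × D E × Bool)

def fst' {E : Type} : X E → D E := Sum.elim id fun t => t.1
def snd' {E : Type} : X E → D E := Sum.elim id fun t => t.2.1

/-- A numbering of `X E` obtained from a numbering of `D E`. -/
def nuOf {E : Type} (dn : ℕ → D E) (m : ℕ) : X E :=
  bif m.bodd then
    Sum.inr (dn m.div2.unpair.1, dn m.div2.unpair.2.unpair.1, m.div2.unpair.2.unpair.2.bodd)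
  else Sum.inl (dn m.div2)

/-- numbering of `D Unit`. -/
def dU (m : ℕ) : D Unit := Nat.casesOn m (Sum.inr ()) fun i => Sum.inl i

/-- The standard numbering of the universe with one extra point. -/
def nuU : ℕ → X Unit := nuOf dU

/-- Number of the point (extra point, i, b) -/
def zU (i : ℕ) (b : Bool) : ℕ :=
  Nat.bit true (Nat.pair 0 (Nat.pair (i + 1) b.toNat))

open Nat.Partrec in
/-- stage `s` of the computation of the `i`-th machine on input the number
of the point over (extra point, i). -/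
def stage (i s : ℕ) : Option ℕ := Code.evaln s (Denumerable.ofNat Code i) (zU i false)

def active (i s : ℕ) : Bool := (stage i s).isSome

/-- The twist bit. -/
def tbit (i s : ℕ) : Bool :=
  ((stage i s).map fun y => decide (nuU y ≠ nuU (zU i true))).getD false

/-- The structures: universe `X E`, `t` says whether the extra points are twisted. -/
def Mod (E : Type) (_ : Bool) : Type := X E

/-- interpretation of the unary symbol `k`. -/
def R1 (E : Type) (t : Bool) (k : ℕ) (x : X E) : Prop :=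
  Nat.casesOn k.unpair.1 (x = nuOf Sum.inl k.unpair.2) fun s =>
    active k.unpair.2 s = true ∧
      x = Sum.inr (fst' x, Sum.inl k.unpair.2, (fst' x).isRight && t && tbit k.unpair.2 s)

def R2 (E : Type) (c : Bool) (z x : X E) : Prop :=
  z.isRight = true ∧ x = Sum.inl (bif c then fst' z else snd' z)

/-- The interpretation of relation symbols. -/
def RM (E : Type) (t : Bool) : ∀ {l : ℕ}, Rel l → (Fin l → X E) → Prop
  | _, Rel.un k, xs => R1 E t k (xs 0)
  | _, Rel.bi c, xs => R2 E c (xs 0) (xs 1)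

instance (E : Type) (t : Bool) : L.Structure (Mod E t) where
  funMap := fun f => f.elim
  RelMap := fun R xs => RM E t R xs

def bt {E : Type} : X E → Bool := Sum.elim (fun _ => false) fun t => t.2.2

theorem X_ext {E : Type} {x y : X E} :
    x = y ↔ x.isRight = y.isRight ∧ fst' x = fst' y ∧ snd' x = snd' y ∧ bt x = bt y := by
  rcases x with p | ⟨p, q, b⟩ <;> rcases y with p' | ⟨p', q', b'⟩ <;>
    simp [fst', snd', bt]

/-- value of a term -/
def tv {E : Type} {α : Type} {n : ℕ} (v : α → X E) (xs : Fin n → X E) :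
    L.Term (α ⊕ Fin n) → X E
  | Term.var (Sum.inl a) => v a
  | Term.var (Sum.inr i) => xs i
  | Term.func f _ => f.elim

def Dom {E : Type} (Q : D E → Prop) (x : X E) : Prop := Q (fst' x) ∧ Q (snd' x)

/-- realization with bounded quantifiers -/
def BR {E : Type} (t : Bool) (Q : D E → Prop) {α : Type} :
    ∀ {n : ℕ}, L.BoundedFormula α n → (α → X E) → (Fin n → X E) → Prop
  | _, .falsum, _, _ => False
  | _, .equal t₁ t₂, v, xs => tv v xs t₁ = tv v xs t₂
  | _, .rel R ts, v, xs => RM E t R fun i => tv v xs (ts i)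
  | _, .imp φ ψ, v, xs => BR t Q φ v xs → BR t Q ψ v xs
  | _, .all φ, v, xs => ∀ x, Dom Q x → BR t Q φ v (Fin.snoc xs x)

theorem tv_eq {E : Type} (t : Bool) {α : Type} {n : ℕ} (v : α → Mod E t) (xs : Fin n → Mod E t)
    (u : L.Term (α ⊕ Fin n)) : u.realize (Sum.elim v xs) = tv (E := E) v xs u := by
  rcases u with (a | i) | ⟨f, _⟩
  · rfl
  · rfl
  · exact f.elim

theorem realize_iff {E : Type} (t : Bool) {α : Type} {n : ℕ} (φ : L.BoundedFormula α n)
    (v : α → Mod E t) (xs : Fin n → Mod E t) :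
    φ.Realize v xs ↔ BR (E := E) t (fun _ => True) φ v xs := by
  induction φ with
  | falsum => exact Iff.rfl
  | equal t₁ t₂ =>
    simp only [BoundedFormula.Realize, BR, tv_eq]
    exact Iff.rfl
  | rel R ts =>
    simp only [BoundedFormula.Realize, BR, tv_eq]
    exact Iff.rfl
  | imp φ ψ h1 h2 =>
    simp only [BoundedFormula.Realize, BR, h1, h2]
  | all φ h =>
    simp only [BoundedFormula.Realize, BR, h]
    constructor
    · intro H x _
      exact H x
    · intro H x
      exact H x ⟨trivial, trivial⟩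

structure Ok {E E' : Type} (t t' : Bool) (Q : D E → Prop) (Q' : D E' → Prop) (K : ℕ)
    (r : List (D E × D E')) : Prop where
  inj : ∀ a ∈ r, ∀ b ∈ r, (a.1 = b.1 ↔ a.2 = b.2)
  vis : ∀ a ∈ r, ∀ i < K, (a.1 = Sum.inl i ↔ a.2 = Sum.inl i)
  tw : ∀ a ∈ r, (a.1.isRight && t) = (a.2.isRight && t')
  dom : ∀ a ∈ r, Q a.1 ∧ Q' a.2
  full : ∀ p, Q p → (∀ a ∈ r, a.1 ≠ p) → (∀ i < K, p ≠ Sum.inl i) ∧ (p.isRight && t) = false
  full' : ∀ p, Q' p → (∀ a ∈ r, a.2 ≠ p) → (∀ i < K, p ≠ Sum.inl i) ∧ (p.isRight && t') = false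

theorem Ok.swap {E E' : Type} {t t' : Bool} {Q : D E → Prop} {Q' : D E' → Prop} {K : ℕ}
    {r : List (D E × D E')} (h : Ok t t' Q Q' K r) : Ok t' t Q' Q K (r.map Prod.swap) := by
  refine ⟨?_, ?_, ?_, ?_, ?_, ?_⟩
  · intro a ha b hb
    rw [List.mem_map] at ha hb
    obtain ⟨a, ha, rfl⟩ := ha
    obtain ⟨b, hb, rfl⟩ := hb
    exact (h.inj a ha b hb).symm
  · intro a ha i hi
    rw [List.mem_map] at ha
    obtain ⟨a, ha, rfl⟩ := ha
    exact (h.vis a ha i hi).symm
  · intro a ha
    rw [List.mem_map] at ha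
    obtain ⟨a, ha, rfl⟩ := ha
    exact (h.tw a ha).symm
  · intro a ha
    rw [List.mem_map] at ha
    obtain ⟨a, ha, rfl⟩ := ha
    exact (h.dom a ha).symm
  · intro p hp H
    refine h.full' p hp fun a ha => ?_
    exact H a.swap (List.mem_map_of_mem ha)
  · intro p hp H
    refine h.full p hp fun a ha => ?_
    exact H a.swap (List.mem_map_of_mem ha)

def Rich {E : Type} (Q : D E → Prop) (m : ℕ) : Prop :=
  ∀ l : List (D E), l.length < m → ∃ p, Q p ∧ p ∉ l

theorem Rich.mono {E : Type} {Q : D E → Prop} {m m' : ℕ} (h : Rich Q m) (hm : m' ≤ m) :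
    Rich Q m' := fun l hl => h l (lt_of_lt_of_le hl hm)

theorem rich_of {E : Type} {Q : D E → Prop} {m : ℕ} (h : ∀ i < m, Q (Sum.inl i)) : Rich Q m := by
  intro l hl
  by_contra! H
  have h1 : (List.range m).map (Sum.inl : ℕ → D E) ⊆ l := by
    intro p hp
    rw [List.mem_map] at hp
    obtain ⟨i, hi, rfl⟩ := hp
    exact H _ (h i (List.mem_range.1 hi))
  have h2 : ((List.range m).map (Sum.inl : ℕ → D E)).Nodup :=
    (List.nodup_range).map Sum.inl_injective
  have h3 := (h2.subperm h1).length_le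
  rw [List.length_map, List.length_range] at h3
  omega

theorem Ok.ext {E E' : Type} {t t' : Bool} {Q : D E → Prop} {Q' : D E' → Prop} {K : ℕ}
    {r : List (D E × D E')} (h : Ok t t' Q Q' K r) (hR : Rich Q' (r.length + 1))
    (p : D E) (hp : Q p) : ∃ p', Ok t t' Q Q' K ((p, p') :: r) := by
  by_cases hpr : ∃ a ∈ r, a.1 = p
  · obtain ⟨a, ha, rfl⟩ := hpr
    refine ⟨a.2, ?_⟩
    have hm : ∀ b, b ∈ ((a.1, a.2) :: r) → b ∈ r := by
      intro b hb
      rcases List.mem_cons.1 hb with rfl | hb
      · exact ha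
      · exact hb
    refine ⟨?_, ?_, ?_, ?_, ?_, ?_⟩
    · exact fun b hb c hc => h.inj b (hm b hb) c (hm c hc)
    · exact fun b hb => h.vis b (hm b hb)
    · exact fun b hb => h.tw b (hm b hb)
    · exact fun b hb => h.dom b (hm b hb)
    · exact fun p hp H => h.full p hp fun b hb => H b (List.mem_cons_of_mem _ hb)
    · exact fun p hp H => h.full' p hp fun b hb => H b (List.mem_cons_of_mem _ hb)
  · push Not at hpr
    obtain ⟨p', hp', hn⟩ := hR (r.map Prod.snd) (by simp)
    have hpr' : ∀ a ∈ r, a.2 ≠ p' := by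
      intro a ha e
      exact hn (e ▸ List.mem_map_of_mem ha)
    obtain ⟨f1, f2⟩ := h.full p hp hpr
    obtain ⟨g1, g2⟩ := h.full' p' hp' hpr'
    refine ⟨p', ?_, ?_, ?_, ?_, ?_, ?_⟩
    · intro b hb c hc
      rcases List.mem_cons.1 hb with rfl | hb <;> rcases List.mem_cons.1 hc with rfl | hc
      · simp
      · have a1 := hpr c hc
        have a2 := hpr' c hc
        exact ⟨fun e => absurd e.symm a1, fun e => absurd e.symm a2⟩
      · have a1 := hpr b hb
        have a2 := hpr' b hb
        exact ⟨fun e => absurd e a1, fun e => absurd e a2⟩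
      · exact h.inj b hb c hc
    · intro b hb i hi
      rcases List.mem_cons.1 hb with rfl | hb
      · exact ⟨fun e => absurd e (f1 i hi), fun e => absurd e (g1 i hi)⟩
      · exact h.vis b hb i hi
    · intro b hb
      rcases List.mem_cons.1 hb with rfl | hb
      · exact f2.trans g2.symm
      · exact h.tw b hb
    · intro b hb
      rcases List.mem_cons.1 hb with rfl | hb
      · exact ⟨hp, hp'⟩
      · exact h.dom b hb
    · exact fun p hp H => h.full p hp fun b hb => H b (List.mem_cons_of_mem _ hb)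
    · exact fun p hp H => h.full' p hp fun b hb => H b (List.mem_cons_of_mem _ hb)

/-- correspondence of elements -/
def Cor {E E' : Type} (r : List (D E × D E')) (x : X E) (x' : X E') : Prop :=
  x.isRight = x'.isRight ∧ (fst' x, fst' x') ∈ r ∧ (snd' x, snd' x') ∈ r ∧ bt x = bt x'

theorem Cor.mono {E E' : Type} {r r' : List (D E × D E')} {x : X E} {x' : X E'} (h : Cor r x x')
    (hr : ∀ a ∈ r, a ∈ r') : Cor r' x x' := ⟨h.1, hr _ h.2.1, hr _ h.2.2.1, h.2.2.2⟩

theorem Cor.swap {E E' : Type} {r : List (D E × D E')} {x : X E} {x' : X E'}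
    (h : Cor r x x') : Cor (r.map Prod.swap) x' x :=
  ⟨h.1.symm, List.mem_map.2 ⟨_, h.2.1, rfl⟩, List.mem_map.2 ⟨_, h.2.2.1, rfl⟩, h.2.2.2.symm⟩

theorem swap_swap {E E' : Type} (r : List (D E × D E')) :
    (r.map Prod.swap).map Prod.swap = r := by
  rw [List.map_map]; simp

theorem Ok.ext2 {E E' : Type} {t t' : Bool} {Q : D E → Prop} {Q' : D E' → Prop} {K : ℕ}
    {r : List (D E × D E')} (h : Ok t t' Q Q' K r) (hR : Rich Q' (r.length + 2))
    (x : X E) (hx : Dom Q x) : ∃ x' r', Dom Q' x' ∧ Ok t t' Q Q' K r' ∧ (∀ a ∈ r, a ∈ r') ∧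
      r'.length = r.length + 2 ∧ Cor r' x x' := by
  obtain ⟨p', h1⟩ := h.ext (hR.mono (by omega)) _ hx.1
  obtain ⟨q', h2⟩ := h1.ext (hR.mono (by simp)) _ hx.2
  have d1 := (h2.dom (fst' x, p') (by simp)).2
  have d2 := (h2.dom (snd' x, q') (by simp)).2
  have hs : ∀ a ∈ r, a ∈ (snd' x, q') :: (fst' x, p') :: r := by
    intro a ha
    exact List.mem_cons_of_mem _ (List.mem_cons_of_mem _ ha)
  rcases x with p | ⟨p, q, b⟩
  · refine ⟨Sum.inl p', _, ⟨d1, d1⟩, h2, hs, by simp, ?_⟩
    refine ⟨rfl, by simp [fst'], ?_, rfl⟩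
    simp [fst', snd']
  · refine ⟨Sum.inr (p', q', b), _, ⟨d1, d2⟩, h2, hs, by simp, ?_⟩
    refine ⟨rfl, by simp [fst'], ?_, rfl⟩
    simp [snd']

theorem Cor.eq_iff {E E' : Type} {t t' : Bool} {Q : D E → Prop} {Q' : D E' → Prop} {K : ℕ}
    {r : List (D E × D E')} (h : Ok t t' Q Q' K r) {x y : X E} {x' y' : X E'} (h1 : Cor r x x')
    (h2 : Cor r y y') : x = y ↔ x' = y' := by
  rw [X_ext, X_ext, h1.1, h2.1, h1.2.2.2, h2.2.2.2]
  have a1 := h.inj _ h1.2.1 _ h2.2.1
  have a2 := h.inj _ h1.2.2.1 _ h2.2.2.1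
  simp only at a1 a2
  rw [a1, a2]

theorem bodd_div2_le (m : ℕ) : m.div2 ≤ m := by
  rw [Nat.div2_val]; omega

theorem el_iff {E E' : Type} {t t' : Bool} {Q : D E → Prop} {Q' : D E' → Prop} {K : ℕ}
    {r : List (D E × D E')} (h : Ok t t' Q Q' K r) {x : X E} {x' : X E'} (h1 : Cor r x x')
    {m : ℕ} (hm : m < K) : x = nuOf Sum.inl m ↔ x' = nuOf Sum.inl m := by
  have b0 := bodd_div2_le m
  have b1 := Nat.unpair_left_le m.div2
  have b2 := Nat.unpair_right_le m.div2
  have b3 := Nat.unpair_left_le m.div2.unpair.2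
  rw [X_ext, X_ext, h1.1, h1.2.2.2]
  unfold nuOf
  cases m.bodd
  · simp only [cond_false, Sum.isRight_inl]
    have a1 := h.vis _ h1.2.1 m.div2 (by omega)
    have a2 := h.vis _ h1.2.2.1 m.div2 (by omega)
    simp only at a1 a2
    simp only [fst', snd', Sum.elim_inl, id] at a1 a2 ⊢
    rw [a1, a2]
    simp [bt]
  · simp only [cond_true, Sum.isRight_inr]
    have a1 := h.vis _ h1.2.1 m.div2.unpair.1 (by omega)
    have a2 := h.vis _ h1.2.2.1 m.div2.unpair.2.unpair.1 (by omega)
    simp only at a1 a2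
    simp only [fst', snd', Sum.elim_inr] at a1 a2 ⊢
    rw [a1, a2]
    simp [bt]

theorem R1_iff {E E' : Type} {t t' : Bool} {Q : D E → Prop} {Q' : D E' → Prop} {K : ℕ}
    {r : List (D E × D E')} (h : Ok t t' Q Q' K r) {x : X E} {x' : X E'} (h1 : Cor r x x')
    {k : ℕ} (hk : k < K) : R1 E t k x ↔ R1 E' t' k x' := by
  have b1 := Nat.unpair_left_le k
  have b2 := Nat.unpair_right_le k
  unfold R1
  cases k.unpair.1 with
  | zero => exact el_iff h h1 (by omega)
  | succ s =>
    simp only
    refine and_congr Iff.rfl ?_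
    rw [X_ext, X_ext (x := x')]
    have a2 := h.vis _ h1.2.2.1 k.unpair.2 (by omega)
    have a3 := h.tw _ h1.2.1
    simp only at a2 a3
    have c1 : ∀ (E : Type) (p q : D E) (b : Bool), fst' (Sum.inr (p, q, b) : X E) = p :=
      fun _ _ _ _ => rfl
    have c2 : ∀ (E : Type) (p q : D E) (b : Bool), snd' (Sum.inr (p, q, b) : X E) = q :=
      fun _ _ _ _ => rfl
    have c3 : ∀ (E : Type) (p q : D E) (b : Bool), bt (Sum.inr (p, q, b) : X E) = b :=
      fun _ _ _ _ => rfl
    rw [c1, c2, c3, c1, c2, c3, h1.1, h1.2.2.2, a2, a3]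
    simp

theorem R2_iff {E E' : Type} {t t' : Bool} {Q : D E → Prop} {Q' : D E' → Prop} {K : ℕ}
    {r : List (D E × D E')} (h : Ok t t' Q Q' K r) {x y : X E} {x' y' : X E'} (h1 : Cor r x x')
    (h2 : Cor r y y') (c : Bool) : R2 E c x y ↔ R2 E' c x' y' := by
  unfold R2
  rw [X_ext (x := y), X_ext (x := y'), h1.1, h2.1, h2.2.2.2]
  have c1 : ∀ (E : Type) (p : D E), fst' (Sum.inl p : X E) = p := fun _ _ => rfl
  have c2 : ∀ (E : Type) (p : D E), snd' (Sum.inl p : X E) = p := fun _ _ => rfl
  have c3 : ∀ (E : Type) (p : D E), bt (Sum.inl p : X E) = false := fun _ _ => rfl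
  have a1 := h.inj _ h2.2.1 _ h1.2.1
  have a2 := h.inj _ h2.2.2.1 _ h1.2.1
  have a3 := h.inj _ h2.2.1 _ h1.2.2.1
  have a4 := h.inj _ h2.2.2.1 _ h1.2.2.1
  simp only at a1 a2 a3 a4
  cases c <;> simp only [cond_true, cond_false, c1, c2, c3, a1, a2, a3, a4, Sum.isRight_inl]

/-- quantifier depth -/
def qd {α : Type} : ∀ {n : ℕ}, L.BoundedFormula α n → ℕ
  | _, .falsum => 0
  | _, .equal _ _ => 0
  | _, .rel _ _ => 0
  | _, .imp φ ψ => max (qd φ) (qd ψ)
  | _, .all φ => qd φ + 1

theorem tv_cor {E E' : Type} {α : Type} [Encodable α] {K : ℕ} {r : List (D E × D E')} {n : ℕ}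
    (v : α → X E) (v' : α → X E') (xs : Fin n → X E) (xs' : Fin n → X E')
    (hv : ∀ a, Encodable.encode a < K → Cor r (v a) (v' a)) (hxs : ∀ i, Cor r (xs i) (xs' i))
    (u : L.Term (α ⊕ Fin n)) (hu : vcode u < K) : Cor r (tv v xs u) (tv v' xs' u) := by
  rcases u with (a | i) | ⟨f, _⟩
  · refine hv a ?_
    have : vcode (Term.var (Sum.inl a) : L.Term (α ⊕ Fin n)) = 2 * Encodable.encode a := rfl
    omega
  · exact hxs i
  · exact f.elim

theorem ef {E E' : Type} {α : Type} [Encodable α] (t t' : Bool) (Q : D E → Prop)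
    (Q' : D E' → Prop) (K : ℕ) :
    ∀ {n : ℕ} (φ : L.BoundedFormula α n), code φ < K → ∀ (r : List (D E × D E')),
      Ok t t' Q Q' K r → Rich Q (r.length + 2 * qd φ) → Rich Q' (r.length + 2 * qd φ) →
      ∀ (v : α → X E) (v' : α → X E') (xs : Fin n → X E) (xs' : Fin n → X E'),
        (∀ a, Encodable.encode a < K → Cor r (v a) (v' a)) → (∀ i, Cor r (xs i) (xs' i)) →
        (BR t Q φ v xs ↔ BR t' Q' φ v' xs') := by
  intro n φ
  induction φ with
  | falsum => intros; exact Iff.rfl
  | equal t₁ t₂ =>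
    intro hc r hr _ _ v v' xs xs' hv hxs
    simp only [BR]
    simp only [code] at hc
    have b1 := Nat.right_le_pair 1 (Nat.pair (vcode t₁) (vcode t₂))
    have b2 := Nat.left_le_pair (vcode t₁) (vcode t₂)
    have b3 := Nat.right_le_pair (vcode t₁) (vcode t₂)
    exact Cor.eq_iff hr (tv_cor v v' xs xs' hv hxs t₁ (by omega))
      (tv_cor v v' xs xs' hv hxs t₂ (by omega))
  | rel R ts =>
    intro hc r hr _ _ v v' xs xs' hv hxs
    simp only [BR]
    simp only [code] at hc
    cases R with
    | un k =>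
      simp only [RM]
      simp only [rcode] at hc
      have b1 := Nat.right_le_pair 2 (Nat.pair k (vcode (ts 0)))
      have b2 := Nat.left_le_pair k (vcode (ts 0))
      have b3 := Nat.right_le_pair k (vcode (ts 0))
      exact R1_iff hr (tv_cor v v' xs xs' hv hxs (ts 0) (by omega)) (by omega)
    | bi c =>
      simp only [RM]
      simp only [rcode] at hc
      have b1 := Nat.right_le_pair 3 (Nat.pair c.toNat (Nat.pair (vcode (ts 0)) (vcode (ts 1))))
      have b4 := Nat.right_le_pair c.toNat (Nat.pair (vcode (ts 0)) (vcode (ts 1)))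
      have b2 := Nat.left_le_pair (vcode (ts 0)) (vcode (ts 1))
      have b3 := Nat.right_le_pair (vcode (ts 0)) (vcode (ts 1))
      exact R2_iff hr (tv_cor v v' xs xs' hv hxs (ts 0) (by omega))
        (tv_cor v v' xs xs' hv hxs (ts 1) (by omega)) c
  | imp φ ψ h1 h2 =>
    intro hc r hr hQ hQ' v v' xs xs' hv hxs
    simp only [BR]
    simp only [code] at hc
    have b1 := Nat.right_le_pair 4 (Nat.pair (code φ) (code ψ))
    have b2 := Nat.left_le_pair (code φ) (code ψ)
    have b3 := Nat.right_le_pair (code φ) (code ψ)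
    have q1 : qd φ ≤ qd (φ.imp ψ) := le_max_left _ _
    have q2 : qd ψ ≤ qd (φ.imp ψ) := le_max_right _ _
    rw [h1 (by omega) r hr (hQ.mono (by omega)) (hQ'.mono (by omega)) v v' xs xs' hv hxs,
      h2 (by omega) r hr (hQ.mono (by omega)) (hQ'.mono (by omega)) v v' xs xs' hv hxs]
  | all φ h =>
    intro hc r hr hQ hQ' v v' xs xs' hv hxs
    simp only [BR]
    simp only [code] at hc
    have b1 := Nat.right_le_pair 5 (code φ)
    have q1 : qd φ.all = qd φ + 1 := rfl
    rw [q1] at hQ hQ'
    constructor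
    · intro H x' hx'
      obtain ⟨x, r', d, ok, sub, len, cor⟩ := hr.swap.ext2
        (by rw [List.length_map]; exact hQ.mono (by omega)) x' hx'
      rw [List.length_map] at len
      have ok' := ok.swap
      have cor' := cor.swap
      have sub' : ∀ a ∈ r, a ∈ r'.map Prod.swap := by
        intro a ha
        have := sub a.swap (List.mem_map_of_mem ha)
        exact List.mem_map.2 ⟨a.swap, this, by simp⟩
      refine (h (by omega) (r'.map Prod.swap) ok' (hQ.mono ?_) (hQ'.mono ?_) v v'
        (Fin.snoc xs x) (Fin.snoc xs' x') ?_ ?_).1 (H x d)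
      · rw [List.length_map]; omega
      · rw [List.length_map]; omega
      · exact fun a ha => (hv a ha).mono sub'
      · intro i
        refine Fin.lastCases ?_ (fun i => ?_) i
        · simpa using cor'
        · simpa using (hxs i).mono sub'
    · intro H x hx
      obtain ⟨x', r', d, ok, sub, len, cor⟩ := hr.ext2 (hQ'.mono (by omega)) x hx
      refine (h (by omega) r' ok (hQ.mono ?_) (hQ'.mono ?_) v v'
        (Fin.snoc xs x) (Fin.snoc xs' x') ?_ ?_).2 (H x' d)
      · omega
      · omega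
      · exact fun a ha => (hv a ha).mono sub
      · intro i
        refine Fin.lastCases ?_ (fun i => ?_) i
        · simpa using cor
        · simpa using (hxs i).mono sub

open Primrec in
theorem nuOf_prim {E : Type} [Primcodable E] {dn : ℕ → D E} (h : Primrec dn) :
    Primrec (nuOf dn) := by
  unfold nuOf
  have hd : Primrec fun m : ℕ => m.div2 := nat_div2
  have hu : Primrec fun m : ℕ => m.div2.unpair := unpair.comp nat_div2
  have hu2 : Primrec fun m : ℕ => m.div2.unpair.2.unpair := unpair.comp (snd.comp hu)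
  exact Primrec.cond nat_bodd
    (sumInr.comp (Primrec.pair (h.comp (fst.comp hu)) (Primrec.pair (h.comp (fst.comp hu2))
      (nat_bodd.comp (snd.comp hu2)))))
    (sumInl.comp (h.comp hd))

open Primrec in
theorem dU_prim : Primrec dU := by
  unfold dU
  exact nat_casesOn Primrec.id (Primrec.const _) (sumInl.comp snd).to₂

theorem nuU_prim : Primrec nuU := nuOf_prim dU_prim

open Primrec in
theorem zU_prim : Primrec₂ zU := by
  unfold zU
  have h1 : Primrec fun p : ℕ × Bool => Nat.pair 0 (Nat.pair (p.1 + 1) p.2.toNat) :=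
    Primrec₂.natPair.comp (Primrec.const 0)
      (Primrec₂.natPair.comp (succ.comp fst) ((dom_bool Bool.toNat).comp snd))
  have h2 : Primrec fun p : ℕ × Bool =>
      2 * Nat.pair 0 (Nat.pair (p.1 + 1) p.2.toNat) + 1 :=
    succ.comp (nat_mul.comp (Primrec.const 2) h1)
  exact h2.of_eq fun p => by simp [Nat.bit]

open Primrec Nat.Partrec in
theorem stage_prim : Primrec₂ stage := by
  unfold stage
  have h : Primrec fun p : ℕ × ℕ => ((p.2, Denumerable.ofNat Code p.1), zU p.1 false) :=
    Primrec.pair (Primrec.pair snd ((Primrec.ofNat Code).comp fst))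
      (zU_prim.comp fst (Primrec.const false))
  exact Nat.Partrec.Code.primrec_evaln.comp h

open Primrec in
theorem active_prim : Primrec₂ active := by
  unfold active
  have h : Primrec fun o : Option ℕ => o.isSome := option_isSome
  exact h.comp stage_prim

open Primrec in
theorem tbit_prim : Primrec₂ tbit := by
  unfold tbit
  have h : Primrec₂ fun (p : ℕ × ℕ) (y : ℕ) => decide (nuU y ≠ nuU (zU p.1 true)) := by
    have h1 : PrimrecRel fun (a b : X Unit) => a ≠ b := Primrec.eq.not
    have h2 : Primrec₂ fun (a b : X Unit) => decide (a ≠ b) := h1.decide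
    exact h2.comp (nuU_prim.comp snd)
      (nuU_prim.comp (zU_prim.comp (fst.comp fst) (Primrec.const true)))
  exact option_getD.comp (option_map stage_prim h) (Primrec.const false)

open Primrec in
theorem fst'_prim {E : Type} [Primcodable E] : Primrec (fst' (E := E)) := by
  have h : Primrec fun x : X E =>
      (Sum.casesOn (motive := fun _ => D E) x (fun p => p) fun t => t.1 : D E) :=
    sumCasesOn Primrec.id snd.to₂ (fst.comp snd).to₂
  exact h.of_eq fun x => by cases x <;> rfl

open Primrec in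
theorem snd'_prim {E : Type} [Primcodable E] : Primrec (snd' (E := E)) := by
  have h : Primrec fun x : X E =>
      (Sum.casesOn (motive := fun _ => D E) x (fun p => p) fun t => t.2.1 : D E) :=
    sumCasesOn Primrec.id snd.to₂ (fst.comp (snd.comp snd)).to₂
  exact h.of_eq fun x => by cases x <;> rfl

open Primrec in
theorem isRight_prim {A B : Type} [Primcodable A] [Primcodable B] :
    Primrec fun x : A ⊕ B => x.isRight := by
  have h : Primrec fun x : A ⊕ B =>
      (Sum.casesOn (motive := fun _ => Bool) x (fun _ => false) fun _ => true : Bool) :=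
    sumCasesOn Primrec.id (Primrec.const false).to₂ (Primrec.const true).to₂
  exact h.of_eq fun x => by cases x <;> rfl

/-- Boolean version of `R1`. -/
def r1 (E : Type) [DecidableEq E] (t : Bool) (k : ℕ) (x : X E) : Bool :=
  Nat.casesOn k.unpair.1 (decide (x = nuOf Sum.inl k.unpair.2)) fun s =>
    active k.unpair.2 s &&
      decide (x = Sum.inr (fst' x, Sum.inl k.unpair.2, (fst' x).isRight && t && tbit k.unpair.2 s))

def r2 (E : Type) [DecidableEq E] (c : Bool) (z x : X E) : Bool :=
  z.isRight && decide (x = Sum.inl (bif c then fst' z else snd' z))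

theorem r1_iff (E : Type) [DecidableEq E] (t : Bool) (k : ℕ) (x : X E) :
    r1 E t k x = true ↔ R1 E t k x := by
  unfold r1 R1
  cases k.unpair.1 <;> simp

theorem r2_iff (E : Type) [DecidableEq E] (c : Bool) (z x : X E) :
    r2 E c z x = true ↔ R2 E c z x := by
  unfold r2 R2
  simp

open Primrec in
theorem r1_prim {E : Type} [Primcodable E] [DecidableEq E] (t : Bool) : Primrec₂ (r1 E t) := by
  unfold r1
  have hk : Primrec fun p : ℕ × X E => p.1.unpair := unpair.comp fst
  refine nat_casesOn (fst.comp hk) ?_ ?_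
  · exact Primrec.eq.decide.comp snd ((nuOf_prim sumInl).comp (snd.comp hk))
  · have hs : Primrec fun q : (ℕ × X E) × ℕ => q.2 := snd
    have hi : Primrec fun q : (ℕ × X E) × ℕ => q.1.1.unpair.2 := snd.comp (hk.comp fst)
    have hx : Primrec fun q : (ℕ × X E) × ℕ => q.1.2 := snd.comp fst
    have hf : Primrec fun q : (ℕ × X E) × ℕ => fst' q.1.2 := fst'_prim.comp hx
    have hr : Primrec fun q : (ℕ × X E) × ℕ =>
        ((fst' q.1.2).isRight && t && tbit q.1.1.unpair.2 q.2) :=
      Primrec.and.comp (Primrec.and.comp (isRight_prim.comp hf) (Primrec.const t))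
        (tbit_prim.comp hi hs)
    exact (Primrec.and.comp (active_prim.comp hi hs)
      (Primrec.eq.decide.comp hx (sumInr.comp (Primrec.pair hf
        (Primrec.pair (sumInl.comp hi) hr))))).to₂

open Primrec in
theorem r2_prim {E : Type} [Primcodable E] [DecidableEq E] :
    Primrec fun p : Bool × X E × X E => r2 E p.1 p.2.1 p.2.2 := by
  unfold r2
  have hz : Primrec fun p : Bool × X E × X E => p.2.1 := fst.comp snd
  have hx : Primrec fun p : Bool × X E × X E => p.2.2 := snd.comp snd
  exact Primrec.and.comp (isRight_prim.comp hz) (Primrec.eq.decide.comp hx (sumInl.comp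
    (Primrec.cond fst (fst'_prim.comp hz) (snd'_prim.comp hz))))

/-- list of elements of `D E` with index below `B` -/
def uD {E : Type} (es : List E) (B : ℕ) : List (D E) :=
  (List.range B).map Sum.inl ++ es.map Sum.inr

/-- finite universe -/
def uX {E : Type} (es : List E) (B : ℕ) : List (X E) :=
  (uD es B).map Sum.inl ++ (uD es B).flatMap fun p => (uD es B).flatMap fun q =>
    [Sum.inr (p, q, false), Sum.inr (p, q, true)]

open Primrec in
theorem uD_prim {E : Type} [Primcodable E] (es : List E) : Primrec (uD es) := by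
  unfold uD
  have h : Primrec₂ fun (_ : ℕ) (i : ℕ) => (Sum.inl i : D E) := (sumInl.comp snd).to₂
  exact list_append.comp (list_map list_range h) (Primrec.const _)

open Primrec in
theorem uX_prim {E : Type} [Primcodable E] (es : List E) : Primrec (uX es) := by
  unfold uX
  have h := uD_prim es
  have h0 : Primrec₂ fun (_ : ℕ) (i : D E) => (Sum.inl i : X E) := (sumInl.comp snd).to₂
  refine list_append.comp (list_map h h0) ?_
  refine list_flatMap h ?_
  have h2 : Primrec fun p : ℕ × D E => uD es p.1 := h.comp fst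
  have hp : Primrec fun q : (ℕ × D E) × D E => q.1.2 := Primrec.comp Primrec.snd Primrec.fst
  have hq : Primrec fun q : (ℕ × D E) × D E => q.2 := Primrec.snd
  have ha : ∀ b : Bool, Primrec fun q : (ℕ × D E) × D E => (Sum.inr (q.1.2, q.2, b) : X E) :=
    fun b => sumInr.comp (Primrec.pair hp (Primrec.pair hq (Primrec.const b)))
  have h3 : Primrec₂ fun (p : ℕ × D E) (q : D E) =>
      [(Sum.inr (p.2, q, false) : X E), Sum.inr (p.2, q, true)] :=
    (list_cons.comp (ha false) (list_cons.comp (ha true) (Primrec.const []))).to₂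
  have h4 : Primrec fun p : ℕ × D E => (uD es p.1).flatMap fun q =>
      [(Sum.inr (p.2, q, false) : X E), Sum.inr (p.2, q, true)] := list_flatMap h2 h3
  exact h4.to₂

/-- bound on coordinates -/
def QB {E : Type} (B : ℕ) (p : D E) : Prop := ∀ i, p = Sum.inl i → i < B

theorem mem_uD {E : Type} {es : List E} (hes : ∀ e, e ∈ es) {B : ℕ} {p : D E} :
    p ∈ uD es B ↔ QB B p := by
  unfold uD QB
  rcases p with i | e
  · simp
  · simp [hes]

theorem mem_uX {E : Type} {es : List E} (hes : ∀ e, e ∈ es) {B : ℕ} {x : X E} :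
    x ∈ uX es B ↔ Dom (QB B) x := by
  unfold uX Dom
  rcases x with p | ⟨p, q, b⟩
  · simp only [fst', snd', Sum.elim_inl, id, and_self, ← mem_uD hes]
    simp
  · simp only [fst', snd', Sum.elim_inr, ← mem_uD hes]
    cases b <;> simp

/-- value of a variable -/
def val {E : Type} (nu : ℕ → X E) (c : ℕ) (xs : List (X E)) : X E :=
  bif c.bodd then xs.getD c.div2 (nu 0) else nu c.div2

open Primrec in
theorem val_prim {E : Type} [Primcodable E] {nu : ℕ → X E} (h : Primrec nu) :
    Primrec₂ (val nu) := by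
  unfold val
  exact Primrec.cond (nat_bodd.comp fst) ((list_getD (nu 0)).comp snd (nat_div2.comp fst))
    (h.comp (nat_div2.comp fst))

/-- evaluation of atomic formulas -/
def atm {E : Type} [DecidableEq E] (t : Bool) (nu : ℕ → X E) (c : ℕ) (xs : List (X E)) : Bool :=
  if c.unpair.1 = 1 then
    decide (val nu c.unpair.2.unpair.1 xs = val nu c.unpair.2.unpair.2 xs)
  else if c.unpair.1 = 2 then r1 E t c.unpair.2.unpair.1 (val nu c.unpair.2.unpair.2 xs)
  else if c.unpair.1 = 3 then
    r2 E c.unpair.2.unpair.1.bodd (val nu c.unpair.2.unpair.2.unpair.1 xs)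
      (val nu c.unpair.2.unpair.2.unpair.2 xs)
  else false

open Primrec in
theorem atm_prim {E : Type} [Primcodable E] [DecidableEq E] (t : Bool) {nu : ℕ → X E}
    (h : Primrec nu) : Primrec₂ (atm t nu) := by
  unfold atm
  have hu : Primrec fun p : ℕ × List (X E) => p.1.unpair := unpair.comp fst
  have hu2 : Primrec fun p : ℕ × List (X E) => p.1.unpair.2.unpair := unpair.comp (snd.comp hu)
  have hu3 : Primrec fun p : ℕ × List (X E) => p.1.unpair.2.unpair.2.unpair :=
    unpair.comp (snd.comp hu2)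
  have ht : ∀ n : ℕ, PrimrecPred fun p : ℕ × List (X E) => p.1.unpair.1 = n := fun n =>
    Primrec.eq.comp (fst.comp hu) (Primrec.const n)
  have hv := val_prim h
  refine Primrec.ite (ht 1) ?_ (Primrec.ite (ht 2) ?_ (Primrec.ite (ht 3) ?_ (Primrec.const _)))
  · exact Primrec.eq.decide.comp (hv.comp (fst.comp hu2) snd) (hv.comp (snd.comp hu2) snd)
  · exact (r1_prim t).comp (fst.comp hu2) (hv.comp (snd.comp hu2) snd)
  · exact r2_prim.comp (Primrec.pair (nat_bodd.comp (fst.comp hu2))
      (Primrec.pair (hv.comp (fst.comp hu3) snd) (hv.comp (snd.comp hu3) snd)))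

theorem lt_of_tag {c : ℕ} (h : 1 ≤ c.unpair.1) : c.unpair.2 < c := by
  have h1 := Nat.add_le_pair c.unpair.1 c.unpair.2
  rw [Nat.pair_unpair] at h1
  omega

/-- the evaluator -/
def ev {E : Type} [DecidableEq E] (es : List E) (t : Bool) (nu : ℕ → X E) (B : ℕ) (c : ℕ)
    (xs : List (X E)) : Bool :=
  if h4 : c.unpair.1 = 4 then
    !(ev es t nu B c.unpair.2.unpair.1 xs) || ev es t nu B c.unpair.2.unpair.2 xs
  else if h5 : c.unpair.1 = 5 then
    ((uX es B).map fun a => ev es t nu B c.unpair.2 (xs ++ [a])).foldr (fun b s => b && s) true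
  else atm t nu c xs
termination_by c
decreasing_by
  · have := lt_of_tag (c := c) (by omega)
    have := Nat.unpair_left_le c.unpair.2
    omega
  · have := lt_of_tag (c := c) (by omega)
    have := Nat.unpair_right_le c.unpair.2
    omega
  · exact lt_of_tag (c := c) (by omega)

open Primrec in
theorem ev_prim {E : Type} [Primcodable E] [DecidableEq E] (es : List E) (t : Bool)
    {nu : ℕ → X E} (hn : Primrec nu) :
    Primrec fun p : ℕ × ℕ × List (X E) => ev es t nu p.1 p.2.1 p.2.2 := by
  have hu : Primrec fun p : ℕ × ℕ × List (X E) => p.2.1.unpair := unpair.comp (fst.comp snd)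
  have hu2 : Primrec fun p : ℕ × ℕ × List (X E) => p.2.1.unpair.2.unpair :=
    unpair.comp (snd.comp hu)
  have ht : ∀ n : ℕ, PrimrecPred fun p : ℕ × ℕ × List (X E) => p.2.1.unpair.1 = n := fun n =>
    Primrec.eq.comp (fst.comp hu) (Primrec.const n)
  have hxs : Primrec fun p : ℕ × ℕ × List (X E) => p.2.2 := snd.comp snd
  refine nat_omega_rec' (β := ℕ × ℕ × List (X E))
    (fun p => ev es t nu p.1 p.2.1 p.2.2) (m := fun p => p.2.1)
    (l := fun p => if p.2.1.unpair.1 = 4 then
        [(p.1, p.2.1.unpair.2.unpair.1, p.2.2), (p.1, p.2.1.unpair.2.unpair.2, p.2.2)]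
      else if p.2.1.unpair.1 = 5 then
        (uX es p.1).map fun a => (p.1, p.2.1.unpair.2, p.2.2 ++ [a])
      else [])
    (g := fun p s => some (if p.2.1.unpair.1 = 4 then !(s.getD 0 false) || s.getD 1 false
      else if p.2.1.unpair.1 = 5 then s.foldr (fun b s => b && s) true
      else atm t nu p.2.1 p.2.2)) ?_ ?_ ?_ ?_ ?_
  · exact fst.comp snd
  · refine Primrec.ite (ht 4) ?_ (Primrec.ite (ht 5) ?_ (Primrec.const _))
    · exact list_cons.comp (Primrec.pair fst (Primrec.pair (fst.comp hu2) hxs))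
        (list_cons.comp (Primrec.pair fst (Primrec.pair (snd.comp hu2) hxs)) (Primrec.const []))
    · refine list_map ((uX_prim es).comp fst) ?_
      exact (Primrec.pair (fst.comp fst) (Primrec.pair (snd.comp (hu.comp fst))
        (list_append.comp (hxs.comp fst) (list_cons.comp snd (Primrec.const []))))).to₂
  · have h8 : Primrec fun q : (ℕ × ℕ × List (X E)) × List Bool =>
        (if q.1.2.1.unpair.1 = 4 then !(q.2.getD 0 false) || q.2.getD 1 false
          else if q.1.2.1.unpair.1 = 5 then q.2.foldr (fun b s => b && s) true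
          else atm t nu q.1.2.1 q.1.2.2) := by
      refine Primrec.ite ((ht 4).comp fst) ?_ (Primrec.ite ((ht 5).comp fst) ?_ ?_)
      rotate_left
      · have h : Primrec₂ fun (_ : (ℕ × ℕ × List (X E)) × List Bool) (p : Bool × Bool) =>
            (p.1 && p.2) := (Primrec.and.comp (fst.comp snd) (snd.comp snd)).to₂
        exact list_foldr snd (Primrec.const true) h
      · exact (atm_prim t hn).comp (fst.comp (snd.comp fst)) (snd.comp (snd.comp fst))
      have hsn : Primrec fun q : (ℕ × ℕ × List (X E)) × List Bool => q.2 := Primrec.snd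
      exact Primrec.or.comp (Primrec.not.comp ((list_getD false).comp hsn (Primrec.const 0)))
        ((list_getD false).comp hsn (Primrec.const 1))
    exact (option_some.comp h8).to₂
  · rintro ⟨B, c, xs⟩ ⟨B', c', xs'⟩ hb
    simp only at hb ⊢
    split_ifs at hb with h4 h5
    · have := lt_of_tag (c := c) (by omega)
      have h1 := Nat.unpair_left_le c.unpair.2
      have h2 := Nat.unpair_right_le c.unpair.2
      simp only [List.mem_cons, List.not_mem_nil, or_false, Prod.mk.injEq] at hb
      rcases hb with ⟨_, rfl, _⟩ | ⟨_, rfl, _⟩ <;> omega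
    · have := lt_of_tag (c := c) (by omega)
      rw [List.mem_map] at hb
      obtain ⟨a, _, ha⟩ := hb
      simp only [Prod.mk.injEq] at ha
      omega
    · simp at hb
  · rintro ⟨B, c, xs⟩
    simp only
    rw [ev.eq_1 es t nu B c xs]
    by_cases h4 : c.unpair.1 = 4
    · simp [h4]
    · by_cases h5 : c.unpair.1 = 5
      · simp [h5, Function.comp_def]
      · simp [h4, h5]

theorem val_eq {E : Type} {α : Type} [Encodable α] {n : ℕ} (nu : ℕ → X E) (v : α → X E)
    (hv : ∀ a, nu (Encodable.encode a) = v a) (xs : Fin n → X E) (u : L.Term (α ⊕ Fin n)) :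
    val nu (vcode u) (List.ofFn xs) = tv v xs u := by
  rcases u with (a | i) | ⟨f, _⟩
  · have h : vcode (Term.var (Sum.inl a) : L.Term (α ⊕ Fin n)) = 2 * Encodable.encode a := rfl
    rw [h]
    simp [val, tv, hv, Nat.div2_val]
  · have h : vcode (Term.var (Sum.inr i) : L.Term (α ⊕ Fin n)) = 2 * (i : ℕ) + 1 := rfl
    rw [h]
    simp [val, tv, List.getD]
  · exact f.elim

theorem ev_iff {E : Type} [DecidableEq E] {α : Type} [Encodable α] {es : List E}
    (hes : ∀ e, e ∈ es) (t : Bool) (nu : ℕ → X E) (v : α → X E)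
    (hv : ∀ a, nu (Encodable.encode a) = v a) (B : ℕ) :
    ∀ {n : ℕ} (φ : L.BoundedFormula α n) (xs : Fin n → X E),
      ev es t nu B (code φ) (List.ofFn xs) = true ↔ BR t (QB B) φ v xs := by
  intro n φ
  induction φ with
  | falsum =>
    intro xs
    rw [ev.eq_1]
    simp [code, BR, atm]
  | equal t₁ t₂ =>
    intro xs
    rw [ev.eq_1]
    simp [code, BR, atm, val_eq nu v hv]
  | rel R ts =>
    intro xs
    rw [ev.eq_1]
    cases R with
    | un k =>
      simp [code, rcode, BR, atm, val_eq nu v hv, RM, r1_iff]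
    | bi c =>
      have hc : c.toNat.bodd = c := by cases c <;> rfl
      simp [code, rcode, BR, atm, val_eq nu v hv, RM, r2_iff, hc]
  | imp φ ψ h1 h2 =>
    intro xs
    rw [ev.eq_1]
    have e1 := h1 xs
    have e2 := h2 xs
    simp only [code, BR, ← e1, ← e2]
    simp only [Nat.unpair_pair, dite_true]
    cases ev es t nu B (code φ) (List.ofFn xs) <;> simp
  | all φ h =>
    intro xs
    rw [ev.eq_1]
    have hfold : ∀ l : List Bool, l.foldr (fun b s => b && s) true = true ↔ ∀ b ∈ l, b = true := by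
      intro l
      induction l with
      | nil => simp
      | cons b l ih => simp [ih]
    simp only [code, BR]
    simp only [Nat.unpair_pair, hfold, Nat.reduceEqDiff, dite_false,
      dite_true, List.mem_map, forall_exists_index, and_imp, forall_apply_eq_imp_iff₂]
    refine forall_congr' fun x => ?_
    rw [mem_uX hes]
    refine imp_congr_right fun _ => ?_
    rw [← h (Fin.snoc xs x)]
    rw [List.ofFn_succ']
    simp [List.concat_eq_append]

theorem qd_le_code {α : Type} [Encodable α] : ∀ {n : ℕ} (φ : L.BoundedFormula α n),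
    qd φ ≤ code φ := by
  intro n φ
  induction φ with
  | falsum => simp [qd]
  | equal t₁ t₂ => simp [qd]
  | rel R ts => simp [qd]
  | imp φ ψ h1 h2 =>
    simp only [qd, code]
    have b1 := Nat.right_le_pair 4 (Nat.pair (code φ) (code ψ))
    have b2 := Nat.left_le_pair (code φ) (code ψ)
    have b3 := Nat.right_le_pair (code φ) (code ψ)
    omega
  | all φ h =>
    simp only [qd, code]
    have b1 := Nat.add_le_pair 5 (code φ)
    omega

theorem nuOf_coord {E : Type} {dn : ℕ → D E} {Q : D E → Prop} {K : ℕ}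
    (h : ∀ m < K, Q (dn m)) {m : ℕ} (hm : m < K) : Q (fst' (nuOf dn m)) ∧ Q (snd' (nuOf dn m)) := by
  have b0 := bodd_div2_le m
  have b1 := Nat.unpair_left_le m.div2
  have b2 := Nat.unpair_right_le m.div2
  have b3 := Nat.unpair_left_le m.div2.unpair.2
  unfold nuOf
  cases m.bodd
  · exact ⟨h _ (by omega), h _ (by omega)⟩
  · exact ⟨h _ (by omega), h _ (by omega)⟩

theorem ok_diag {E : Type} {es : List E} (hes : ∀ e, e ∈ es) (t : Bool) (Q Q' : D E → Prop)
    {K : ℕ} (hQ : ∀ p, QB K p → Q p) (hQ' : ∀ p, QB K p → Q' p) :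
    Ok t t Q Q' K ((uD es K).map fun p => (p, p)) := by
  have hm : ∀ a, a ∈ ((uD es K).map fun p => (p, p)) → a.1 = a.2 ∧ QB K a.1 := by
    intro a ha
    rw [List.mem_map] at ha
    obtain ⟨p, hp, rfl⟩ := ha
    exact ⟨rfl, (mem_uD hes).1 hp⟩
  have hfull : ∀ p, ((p, p) ∉ ((uD es K).map fun p => (p, p))) →
      (∀ i < K, p ≠ Sum.inl i) ∧ (p.isRight && t) = false := by
    intro p hp
    have hn : ¬ QB K p := by
      intro hq
      exact hp (List.mem_map.2 ⟨p, (mem_uD hes).2 hq, rfl⟩)
    rcases p with i | e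
    · refine ⟨?_, rfl⟩
      rintro j hj e
      apply hn
      rintro k hk
      rw [e] at hk
      exact (Sum.inl_injective hk) ▸ hj
    · exfalso
      apply hn
      intro i hi
      cases hi
  refine ⟨?_, ?_, ?_, ?_, ?_, ?_⟩
  · intro a ha b hb
    rw [(hm a ha).1, (hm b hb).1]
  · intro a ha i _
    rw [(hm a ha).1]
  · intro a ha
    rw [(hm a ha).1]
  · intro a ha
    exact ⟨hQ _ (hm a ha).2, hQ' _ ((hm a ha).1 ▸ (hm a ha).2)⟩
  · intro p _ H
    exact hfull p fun hc => H _ hc rfl
  · intro p _ H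
    exact hfull p fun hc => H _ hc rfl

theorem ev_realize {E : Type} [DecidableEq E] {α : Type} [Encodable α]
    {es : List E} (hes : ∀ e, e ∈ es) (t : Bool) {dn : ℕ → D E}
    (hb : ∀ m i, dn m = Sum.inl i → i ≤ m) (v : α → Mod E t)
    (hv : ∀ a, nuOf dn (Encodable.encode a) = v a) (φ : L.Formula α) :
    ev es t (nuOf dn) (3 * code φ + es.length + 3) (code φ) [] = true ↔ φ.Realize v := by
  have h1 := ev_iff hes t (nuOf dn) v hv (3 * code φ + es.length + 3) φ Fin.elim0
  simp only [List.ofFn_zero] at h1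
  rw [h1]
  have h2 := realize_iff t φ v Fin.elim0
  have h3 : φ.Realize v ↔ BoundedFormula.Realize φ v Fin.elim0 := by
    unfold Formula.Realize
    rw [Subsingleton.elim (default : Fin 0 → Mod E t) Fin.elim0]
  rw [h3, h2]
  have hK : QB (E := E) (3 * code φ + es.length + 3) = QB (3 * code φ + es.length + 3) := rfl
  have hqd := qd_le_code φ
  have hlen : ((uD es (code φ + 1)).map fun p => (p, p)).length = code φ + 1 + es.length := by
    simp [uD]
  refine ef t t (QB (3 * code φ + es.length + 3)) (fun _ => True) (code φ + 1) φ (by omega)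
    ((uD es (code φ + 1)).map fun p => (p, p)) ?_ ?_ ?_ v v Fin.elim0 Fin.elim0 ?_ ?_
  · refine ok_diag hes t _ _ ?_ ?_
    · intro p hp i hi
      have := hp i hi
      omega
    · intro p _; trivial
  · refine rich_of ?_
    intro i hi j hj
    rw [hlen] at hi
    have := Sum.inl_injective hj
    omega
  · exact rich_of fun _ _ => trivial
  · intro a ha
    rw [← hv a]
    have hq : ∀ m < code φ + 1, (dn m, dn m) ∈ (uD es (code φ + 1)).map fun p => (p, p) := by
      intro m hm
      refine List.mem_map.2 ⟨dn m, (mem_uD hes).2 ?_, rfl⟩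
      intro i hi
      have := hb m i hi
      omega
    obtain ⟨c1, c2⟩ := nuOf_coord (dn := dn)
      (Q := fun p => (p, p) ∈ (uD es (code φ + 1)).map fun p => (p, p)) hq ha
    exact ⟨rfl, c1, c2, rfl⟩
  · intro i; exact i.elim0

theorem computable_diag {E : Type} [Primcodable E] [DecidableEq E] {α : Type} [Encodable α]
    {es : List E} (hes : ∀ e, e ∈ es) (t : Bool) {dn : ℕ → D E} (hd : Primrec dn)
    (hb : ∀ m i, dn m = Sum.inl i → i ≤ m) (v : α → Mod E t)
    (hv : ∀ a, nuOf dn (Encodable.encode a) = v a) :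
    ComputableSet {φ : L.Formula α | φ.Realize v} := by
  refine ⟨fun c => ev es t (nuOf dn) (3 * c + es.length + 3) c [], ?_, ?_⟩
  · have h1 : Primrec fun c : ℕ => 3 * c + es.length + 3 :=
      Primrec.nat_add.comp (Primrec.nat_add.comp (Primrec.nat_mul.comp (Primrec.const 3) Primrec.id)
        (Primrec.const _)) (Primrec.const 3)
    exact ((ev_prim es t (nuOf_prim hd)).comp
      (Primrec.pair h1 (Primrec.pair Primrec.id (Primrec.const [])))).to_comp
  · intro φ
    exact ev_realize hes t hb v hv φ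

/-- The named elements. -/
abbrev el {E : Type} (m : ℕ) : X E := nuOf Sum.inl m

/-- The prime model. -/
abbrev Pr : Type := Mod Empty false

/-- The theory. -/
def Th : L.Theory := L.completeTheory Pr

section
variable {M : Type} [L.Structure M]

def NN (k : ℕ) (x : M) : Prop := Structure.RelMap (un (Nat.pair 0 k)) ![x]
def UU (i s : ℕ) (x : M) : Prop := Structure.RelMap (un (Nat.pair (s + 1) i)) ![x]
def PP (c : Bool) (z x : M) : Prop := Structure.RelMap (bi c) ![z, x]

end

section
variable {E : Type} {t : Bool}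

theorem NN_iff (k : ℕ) (x : X E) : NN (M := Mod E t) k x ↔ x = el k := by
  have h : NN (M := Mod E t) k x ↔ R1 E t (Nat.pair 0 k) x := Iff.rfl
  rw [h]
  unfold R1
  rw [Nat.unpair_pair]
  exact Iff.rfl

theorem UU_iff (i s : ℕ) (x : X E) : UU (M := Mod E t) i s x ↔ active i s = true ∧
    x = Sum.inr (fst' x, Sum.inl i, (fst' x).isRight && t && tbit i s) := by
  have h : UU (M := Mod E t) i s x ↔ R1 E t (Nat.pair (s + 1) i) x := Iff.rfl
  rw [h]
  unfold R1
  rw [Nat.unpair_pair]

theorem PP_iff (c : Bool) (z x : X E) : PP (M := Mod E t) c z x ↔ R2 E c z x := Iff.rfl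

end

def tm {n : ℕ} (i : Fin n) : L.Term (Empty ⊕ Fin n) := Term.var (Sum.inr i)
def fN (k : ℕ) {n : ℕ} (i : Fin n) : L.BoundedFormula Empty n :=
  (un (Nat.pair 0 k)).boundedFormula₁ (tm i)
def fU (j s : ℕ) {n : ℕ} (i : Fin n) : L.BoundedFormula Empty n :=
  (un (Nat.pair (s + 1) j)).boundedFormula₁ (tm i)
def fP (c : Bool) {n : ℕ} (i j : Fin n) : L.BoundedFormula Empty n :=
  (bi c).boundedFormula₂ (tm i) (tm j)
def fE {n : ℕ} (i j : Fin n) : L.BoundedFormula Empty n := Term.bdEqual (tm i) (tm j)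

section
variable {M : Type} [L.Structure M]

theorem r_fN (k : ℕ) {n : ℕ} (i : Fin n) (v : Empty → M) (xs : Fin n → M) :
    (fN k i).Realize v xs ↔ NN k (xs i) := BoundedFormula.realize_rel₁
theorem r_fU (j s : ℕ) {n : ℕ} (i : Fin n) (v : Empty → M) (xs : Fin n → M) :
    (fU j s i).Realize v xs ↔ UU j s (xs i) := BoundedFormula.realize_rel₁
theorem r_fP (c : Bool) {n : ℕ} (i j : Fin n) (v : Empty → M) (xs : Fin n → M) :
    (fP c i j).Realize v xs ↔ PP c (xs i) (xs j) := BoundedFormula.realize_rel₂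
theorem r_fE {n : ℕ} (i j : Fin n) (v : Empty → M) (xs : Fin n → M) :
    (fE i j).Realize v xs ↔ xs i = xs j := by
  unfold fE
  rw [BoundedFormula.realize_bdEqual]
  rfl

def s1 (k : ℕ) : L.Sentence := ∃' (fN k (0 : Fin 1))
def s2 (k k' : ℕ) : L.Sentence := ∀' ∀' (fN k (0 : Fin 2) ⟹ (fN k' 1 ⟹ fE 0 1))
def s2' (k k' : ℕ) : L.Sentence := ∀' ∀' (fN k (0 : Fin 2) ⟹ (fN k' 1 ⟹ ∼(fE 0 1)))
def b1 (c : Bool) : L.Sentence := ∀' ∀' (fP c (0 : Fin 2) 1 ⟹ ∃' fP (!c) (0 : Fin 3) 2)
def b2 (c : Bool) : L.Sentence :=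
  ∀' ∀' ∀' (fP c (0 : Fin 3) 1 ⟹ (fP c 0 2 ⟹ fE 1 2))
def b3 (c c' : Bool) : L.Sentence :=
  ∀' ∀' ∀' (fP c (0 : Fin 3) 1 ⟹ ∼(fP c' 1 2))
def b4 : L.Sentence :=
  ∀' ∀' ((∀' ∼(fP true (0 : Fin 3) 2)) ⟹ ((∀' ∼(fP true (1 : Fin 3) 2)) ⟹
    ∃' ∃' (∼(fE (2 : Fin 4) 3) ⊓ (fP true 2 0 ⊓ (fP false 2 1 ⊓ (fP true 3 0 ⊓ (fP false 3 1 ⊓
      ∀' (fP true (4 : Fin 5) 0 ⟹ (fP false 4 1 ⟹ (fE 4 2 ⊔ fE 4 3))))))))))
def c1 (m : ℕ) : L.Sentence := ∀' ∀' (fN m (0 : Fin 2) ⟹ ∼(fP true 0 1))
def c2 (c : Bool) (k k' : ℕ) : L.Sentence :=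
  ∀' ∀' (fN k (0 : Fin 2) ⟹ (fN k' 1 ⟹ fP c 0 1))
def d0 (i s : ℕ) : L.Sentence := ∀' ∼(fU i s (0 : Fin 1))
def d1 (i s : ℕ) : L.Sentence :=
  ∀' (fU i s (0 : Fin 1) ⟹ ∃' (fN (2 * i) (1 : Fin 2) ⊓ fP false 0 1))
def d2 (i s : ℕ) : L.Sentence :=
  ∀' ∀' ((∀' ∼(fP true (0 : Fin 3) 2)) ⟹ (fN (2 * i) (1 : Fin 2) ⟹
    ∃' (fP true (2 : Fin 3) 0 ⊓ (fP false 2 1 ⊓ (fU i s 2 ⊓
      ∀' (fP true (3 : Fin 4) 0 ⟹ (fP false 3 1 ⟹ (fU i s 3 ⟹ fE 3 2))))))))
def d3 (i s s' : ℕ) : L.Sentence := ∀' (fU i s (0 : Fin 1) ⟹ fU i s' 0)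
def d4 (m i s : ℕ) : L.Sentence := ∀' (fN m (0 : Fin 1) ⟹ fU i s 0)

theorem r_s1 (k : ℕ) : M ⊨ s1 k ↔ ∃ x : M, NN k x := by
  simp only [s1, Sentence.Realize, Formula.Realize, BoundedFormula.realize_ex, r_fN]
  exact Iff.rfl
theorem r_s2 (k k' : ℕ) : M ⊨ s2 k k' ↔ ∀ x y : M, NN k x → NN k' y → x = y := by
  simp only [s2, Sentence.Realize, Formula.Realize, BoundedFormula.realize_all,
    BoundedFormula.realize_imp, r_fN, r_fE]
  exact Iff.rfl
theorem r_s2' (k k' : ℕ) : M ⊨ s2' k k' ↔ ∀ x y : M, NN k x → NN k' y → x ≠ y := by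
  simp only [s2', Sentence.Realize, Formula.Realize, BoundedFormula.realize_all,
    BoundedFormula.realize_imp, BoundedFormula.realize_not, r_fN, r_fE]
  exact Iff.rfl
theorem r_b1 (c : Bool) : M ⊨ b1 c ↔ ∀ z x : M, PP c z x → ∃ y, PP (!c) z y := by
  simp only [b1, Sentence.Realize, Formula.Realize, BoundedFormula.realize_all,
    BoundedFormula.realize_imp, BoundedFormula.realize_ex, r_fP]
  exact Iff.rfl
theorem r_b2 (c : Bool) : M ⊨ b2 c ↔ ∀ z x y : M, PP c z x → PP c z y → x = y := by
  simp only [b2, Sentence.Realize, Formula.Realize, BoundedFormula.realize_all,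
    BoundedFormula.realize_imp, r_fP, r_fE]
  exact Iff.rfl
theorem r_b3 (c c' : Bool) : M ⊨ b3 c c' ↔ ∀ z x w : M, PP c z x → ¬ PP c' x w := by
  simp only [b3, Sentence.Realize, Formula.Realize, BoundedFormula.realize_all,
    BoundedFormula.realize_imp, BoundedFormula.realize_not, r_fP]
  exact Iff.rfl
theorem r_b4 : M ⊨ b4 ↔ ∀ x y : M, (∀ w, ¬ PP true x w) → (∀ w, ¬ PP true y w) →
    ∃ z z' : M, z ≠ z' ∧ PP true z x ∧ PP false z y ∧ PP true z' x ∧ PP false z' y ∧
      ∀ w, PP true w x → PP false w y → w = z ∨ w = z' := by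
  simp only [b4, Sentence.Realize, Formula.Realize, BoundedFormula.realize_all,
    BoundedFormula.realize_imp, BoundedFormula.realize_ex, BoundedFormula.realize_inf,
    BoundedFormula.realize_sup, BoundedFormula.realize_not, r_fP, r_fE]
  exact Iff.rfl
theorem r_c1 (m : ℕ) : M ⊨ c1 m ↔ ∀ x w : M, NN m x → ¬ PP true x w := by
  simp only [c1, Sentence.Realize, Formula.Realize, BoundedFormula.realize_all,
    BoundedFormula.realize_imp, BoundedFormula.realize_not, r_fP, r_fN]
  exact Iff.rfl
theorem r_c2 (c : Bool) (k k' : ℕ) :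
    M ⊨ c2 c k k' ↔ ∀ x y : M, NN k x → NN k' y → PP c x y := by
  simp only [c2, Sentence.Realize, Formula.Realize, BoundedFormula.realize_all,
    BoundedFormula.realize_imp, r_fP, r_fN]
  exact Iff.rfl
theorem r_d0 (i s : ℕ) : M ⊨ d0 i s ↔ ∀ x : M, ¬ UU i s x := by
  simp only [d0, Sentence.Realize, Formula.Realize, BoundedFormula.realize_all,
    BoundedFormula.realize_not, r_fU]
  exact Iff.rfl
theorem r_d1 (i s : ℕ) :
    M ⊨ d1 i s ↔ ∀ z : M, UU i s z → ∃ y, NN (2 * i) y ∧ PP false z y := by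
  simp only [d1, Sentence.Realize, Formula.Realize, BoundedFormula.realize_all,
    BoundedFormula.realize_imp, BoundedFormula.realize_ex, BoundedFormula.realize_inf,
    r_fP, r_fU, r_fN]
  exact Iff.rfl
theorem r_d2 (i s : ℕ) :
    M ⊨ d2 i s ↔ ∀ x y : M, (∀ w, ¬ PP true x w) → NN (2 * i) y → ∃ z, PP true z x ∧
      PP false z y ∧ UU i s z ∧ ∀ z', PP true z' x → PP false z' y → UU i s z' → z' = z := by
  simp only [d2, Sentence.Realize, Formula.Realize, BoundedFormula.realize_all,
    BoundedFormula.realize_imp, BoundedFormula.realize_ex, BoundedFormula.realize_inf,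
    BoundedFormula.realize_not, r_fP, r_fU, r_fN, r_fE]
  exact Iff.rfl
theorem r_d3 (i s s' : ℕ) : M ⊨ d3 i s s' ↔ ∀ z : M, UU i s z → UU i s' z := by
  simp only [d3, Sentence.Realize, Formula.Realize, BoundedFormula.realize_all,
    BoundedFormula.realize_imp, r_fU]
  exact Iff.rfl
theorem r_d4 (m i s : ℕ) : M ⊨ d4 m i s ↔ ∀ z : M, NN m z → UU i s z := by
  simp only [d4, Sentence.Realize, Formula.Realize, BoundedFormula.realize_all,
    BoundedFormula.realize_imp, r_fU, r_fN]
  exact Iff.rfl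

end

structure Ax (M : Type) [L.Structure M] : Prop where
  s1 : ∀ k, ∃ x : M, NN k x
  s2 : ∀ k k', el (E := Empty) k = el k' → ∀ x y : M, NN k x → NN k' y → x = y
  s2' : ∀ k k', el (E := Empty) k ≠ el k' → ∀ x y : M, NN k x → NN k' y → x ≠ y
  b1 : ∀ (c : Bool) (z x : M), PP c z x → ∃ y, PP (!c) z y
  b2 : ∀ (c : Bool) (z x y : M), PP c z x → PP c z y → x = y
  b3 : ∀ (c c' : Bool) (z x w : M), PP c z x → ¬ PP c' x w
  b4 : ∀ x y : M, (∀ w, ¬ PP true x w) → (∀ w, ¬ PP true y w) →
    ∃ z z' : M, z ≠ z' ∧ PP true z x ∧ PP false z y ∧ PP true z' x ∧ PP false z' y ∧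
      ∀ w, PP true w x → PP false w y → w = z ∨ w = z'
  c1 : ∀ m, (el (E := Empty) m).isRight = false → ∀ x w : M, NN m x → ¬ PP true x w
  c2 : ∀ (c : Bool) (k k' : ℕ), R2 Empty c (el k) (el k') →
    ∀ x y : M, NN k x → NN k' y → PP c x y
  d0 : ∀ i s, active i s = false → ∀ x : M, ¬ UU i s x
  d1 : ∀ i s, ∀ z : M, UU i s z → ∃ y, NN (2 * i) y ∧ PP false z y
  d2 : ∀ i s, active i s = true → ∀ x y : M, (∀ w, ¬ PP true x w) → NN (2 * i) y →
    ∃ z, PP true z x ∧ PP false z y ∧ UU i s z ∧
      ∀ z', PP true z' x → PP false z' y → UU i s z' → z' = z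
  d3 : ∀ i s s', active i s = true → active i s' = true → ∀ z : M, UU i s z → UU i s' z
  d4 : ∀ m i j s, el (E := Empty) m = Sum.inr (Sum.inl j, Sum.inl i, false) →
    active i s = true → ∀ z : M, NN m z → UU i s z

theorem el_two {E : Type} (i : ℕ) : el (E := E) (2 * i) = Sum.inl (Sum.inl i) := by
  simp [el, nuOf, Nat.div2_val]

theorem noP {x : X Empty} (h : ∀ w : X Empty, ¬ R2 Empty true x w) : ∃ p, x = Sum.inl p := by
  rcases x with p | ⟨p, q, b⟩
  · exact ⟨p, rfl⟩
  · exact absurd (⟨rfl, rfl⟩ : R2 Empty true (Sum.inr (p, q, b)) (Sum.inl p)) (h (Sum.inl p))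

theorem UU0_iff (i s : ℕ) (x : X Empty) : UU (M := Pr) i s x ↔ active i s = true ∧
    x = Sum.inr (fst' x, Sum.inl i, false) := by
  have h := UU_iff (E := Empty) (t := false) i s x
  simp only [Bool.and_false, Bool.false_and] at h
  exact h

theorem ax_Pr : Ax Pr := by
  refine ⟨?_, ?_, ?_, ?_, ?_, ?_, ?_, ?_, ?_, ?_, ?_, ?_, ?_, ?_⟩
  · exact fun k => ⟨el (E := Empty) k, (NN_iff k _).2 rfl⟩
  · intro k k' h x y hx hy
    exact ((NN_iff k x).1 hx).trans (h.trans ((NN_iff k' y).1 hy).symm)
  · intro k k' h x y hx hy e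
    exact h (((NN_iff k x).1 hx).symm.trans (e.trans ((NN_iff k' y).1 hy)))
  · rintro c (z : X Empty) (x : X Empty) h
    have h' : R2 Empty c z x := h
    exact ⟨(Sum.inl (bif (!c) then fst' z else snd' z) : X Empty), h'.1, rfl⟩
  · rintro c (z : X Empty) (x : X Empty) (y : X Empty) h1 h2
    have h1' : R2 Empty c z x := h1
    have h2' : R2 Empty c z y := h2
    exact h1'.2.trans h2'.2.symm
  · rintro c c' (z : X Empty) (x : X Empty) (w : X Empty) h1 h2
    have h1' : R2 Empty c z x := h1
    have h2' : R2 Empty c' x w := h2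
    have h3 := h2'.1
    rw [h1'.2] at h3
    cases h3
  · intro (x : X Empty) (y : X Empty) hx hy
    obtain ⟨p, rfl⟩ := noP hx
    obtain ⟨q, rfl⟩ := noP hy
    refine ⟨(Sum.inr (p, q, false) : X Empty), (Sum.inr (p, q, true) : X Empty), ?_, ⟨rfl, rfl⟩,
      ⟨rfl, rfl⟩, ⟨rfl, rfl⟩, ⟨rfl, rfl⟩, ?_⟩
    · intro h
      cases h
    · rintro (w : X Empty) h1 h2
      have h1' : R2 Empty true w (Sum.inl p) := h1
      have h2' : R2 Empty false w (Sum.inl q) := h2
      rcases w with p' | ⟨p', q', b⟩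
      · cases h1'.1
      · have e1 : p = p' := Sum.inl_injective h1'.2
        have e2 : q = q' := Sum.inl_injective h2'.2
        subst e1 e2
        cases b
        · exact Or.inl rfl
        · exact Or.inr rfl
  · rintro m hm (x : X Empty) (w : X Empty) hx h
    have h' : R2 Empty true x w := h
    have hx' : x = el m := (NN_iff (t := false) m x).1 hx
    have h3 := h'.1
    rw [hx', hm] at h3
    cases h3
  · rintro c k k' h (x : X Empty) (y : X Empty) hx hy
    have hx' : x = el k := (NN_iff (t := false) k x).1 hx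
    have hy' : y = el k' := (NN_iff (t := false) k' y).1 hy
    subst hx' hy'
    exact h
  · rintro i s h (x : X Empty) hx
    have hx' := (UU0_iff i s x).1 hx
    rw [h] at hx'
    exact absurd hx'.1 (by simp)
  · rintro i s (z : X Empty) hz
    have hz' := (UU0_iff i s z).1 hz
    refine ⟨(Sum.inl (Sum.inl i) : X Empty), (NN_iff (t := false) _ _).2 (el_two i).symm, ?_⟩
    have : R2 Empty false z (Sum.inl (Sum.inl i)) := by
      rw [hz'.2]
      exact ⟨rfl, rfl⟩
    exact this
  · rintro i s h (x : X Empty) (y : X Empty) hx hy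
    have hy' : y = el (2 * i) := (NN_iff (t := false) _ y).1 hy
    rw [el_two] at hy'
    subst hy'
    obtain ⟨p, rfl⟩ := noP hx
    refine ⟨(Sum.inr (p, Sum.inl i, false) : X Empty), ⟨rfl, rfl⟩, ⟨rfl, rfl⟩,
      (UU0_iff i s _).2 ⟨h, rfl⟩, ?_⟩
    rintro (z' : X Empty) h2 _ h5
    have h2' : R2 Empty true z' (Sum.inl p) := h2
    have h5' := ((UU0_iff i s z').1 h5).2
    have h6 : p = fst' z' := Sum.inl_injective h2'.2
    rw [← h6] at h5'
    exact h5'
  · rintro i s s' _ h' (z : X Empty) hz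
    exact (UU0_iff i s' z).2 ⟨h', ((UU0_iff i s z).1 hz).2⟩
  · rintro m i j s hm h (z : X Empty) hz
    have hz' : z = el m := (NN_iff (t := false) m z).1 hz
    rw [hm] at hz'
    subst hz'
    exact (UU0_iff i s _).2 ⟨h, rfl⟩

theorem ax_of_model {M : Type} [L.Structure M] (hM : M ⊨ Th) : Ax M := by
  have tr : ∀ σ : L.Sentence, Pr ⊨ σ → M ⊨ σ := fun σ h =>
    Th.realize_sentence_of_mem (φ := σ) ((mem_completeTheory (M := Pr)).2 h)
  have h := ax_Pr
  refine ⟨?_, ?_, ?_, ?_, ?_, ?_, ?_, ?_, ?_, ?_, ?_, ?_, ?_, ?_⟩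
  · exact fun k => (r_s1 k).1 (tr _ ((r_s1 k).2 (h.s1 k)))
  · exact fun k k' hk => (r_s2 k k').1 (tr _ ((r_s2 k k').2 (h.s2 k k' hk)))
  · exact fun k k' hk => (r_s2' k k').1 (tr _ ((r_s2' k k').2 (h.s2' k k' hk)))
  · exact fun c => (r_b1 c).1 (tr _ ((r_b1 c).2 (h.b1 c)))
  · exact fun c => (r_b2 c).1 (tr _ ((r_b2 c).2 (h.b2 c)))
  · exact fun c c' => (r_b3 c c').1 (tr _ ((r_b3 c c').2 (h.b3 c c')))
  · exact r_b4.1 (tr _ (r_b4.2 h.b4))
  · exact fun m hm => (r_c1 m).1 (tr _ ((r_c1 m).2 (h.c1 m hm)))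
  · exact fun c k k' hk => (r_c2 c k k').1 (tr _ ((r_c2 c k k').2 (h.c2 c k k' hk)))
  · exact fun i s hs => (r_d0 i s).1 (tr _ ((r_d0 i s).2 (h.d0 i s hs)))
  · exact fun i s => (r_d1 i s).1 (tr _ ((r_d1 i s).2 (h.d1 i s)))
  · exact fun i s hs => (r_d2 i s).1 (tr _ ((r_d2 i s).2 (h.d2 i s hs)))
  · exact fun i s s' hs hs' => (r_d3 i s s').1 (tr _ ((r_d3 i s s').2 (h.d3 i s s' hs hs')))
  · exact fun m i j s hm hs => (r_d4 m i s).1 (tr _ ((r_d4 m i s).2 (h.d4 m i j s hm hs)))

/-- index of the named element `(i, j, b)` -/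
def m0 (i j : ℕ) (b : Bool) : ℕ := Nat.bit true (Nat.pair i (Nat.pair j b.toNat))

theorem el_m0 {E : Type} (i j : ℕ) (b : Bool) :
    el (E := E) (m0 i j b) = Sum.inr (Sum.inl i, Sum.inl j, b) := by
  have hc : b.toNat.bodd = b := by cases b <;> rfl
  unfold el nuOf m0
  rw [Nat.bodd_bit, Nat.div2_bit]
  simp only [cond_true, Nat.unpair_pair, hc]

theorem el_cases (m : ℕ) : (∃ i, ∀ E : Type, el (E := E) m = Sum.inl (Sum.inl i)) ∨
    ∃ i j b, ∀ E : Type, el (E := E) m = Sum.inr (Sum.inl i, Sum.inl j, b) := by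
  cases hb : m.bodd
  · left
    refine ⟨m.div2, fun E => ?_⟩
    unfold el nuOf
    rw [hb]
    rfl
  · right
    refine ⟨m.div2.unpair.1, m.div2.unpair.2.unpair.1, m.div2.unpair.2.unpair.2.bodd,
      fun E => ?_⟩
    unfold el nuOf
    rw [hb]
    rfl

section
variable {M : Type} [L.Structure M]

/-- base elements of a model -/
def DM (x : M) : Prop := ∀ w : M, ¬ PP true x w

/-- the unnamed base elements -/
def EM (M : Type) [L.Structure M] : Type := {x : M // DM x ∧ ∀ i, ¬ NN (2 * i) x}

theorem idx_unique (h : Ax M) {i j : ℕ} {x : M} (hi : NN (2 * i) x) (hj : NN (2 * j) x) :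
    i = j := by
  by_contra hne
  refine h.s2' (2 * i) (2 * j) ?_ x x hi hj rfl
  rw [el_two, el_two]
  intro e
  exact hne (Sum.inl_injective (Sum.inl_injective e))

theorem NN_trans (h : Ax M) {m k : ℕ} (he : el (E := Empty) m = el k) {x : M} (hx : NN k x) :
    NN m x := by
  obtain ⟨y, hy⟩ := h.s1 m
  rw [← h.s2 m k he y x hy hx]
  exact hy

theorem pairfib (h : Ax M) {x y z0 : M} (hx : DM x) (hy : DM y) (h1 : PP true z0 x)
    (h2 : PP false z0 y) : ∃ z1, z0 ≠ z1 ∧ PP true z1 x ∧ PP false z1 y ∧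
      ∀ w, PP true w x → PP false w y → w = z0 ∨ w = z1 := by
  obtain ⟨z, z', a1, a2, a3, a4, a5, a6⟩ := h.b4 x y hx hy
  rcases a6 z0 h1 h2 with e | e
  · subst e
    exact ⟨z', a1, a4, a5, a6⟩
  · subst e
    exact ⟨z, a1.symm, a2, a3, fun w hw hw' => (a6 w hw hw').symm⟩

theorem fib (h : Ax M) {x y : M} (hx : DM x) (hy : DM y) : ∃ g : Bool → M,
    g false ≠ g true ∧ (∀ b, PP true (g b) x ∧ PP false (g b) y) ∧
    (∀ w, PP true w x → PP false w y → ∃ b, w = g b) ∧
    (∀ i j m b, NN (2 * i) x → NN (2 * j) y →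
      el (E := Empty) m = Sum.inr (Sum.inl i, Sum.inl j, b) → NN m (g b)) ∧
    (∀ i s, NN (2 * i) y → active i s = true → UU i s (g false)) := by
  by_cases hA : ∃ i j, NN (2 * i) x ∧ NN (2 * j) y
  · obtain ⟨i, j, hi, hj⟩ := hA
    choose e he using fun b => h.s1 (m0 i j b)
    have hne : e false ≠ e true := by
      refine h.s2' (m0 i j false) (m0 i j true) ?_ _ _ (he false) (he true)
      rw [el_m0, el_m0]
      simp
    have hp1 : ∀ b, PP true (e b) x := by
      intro b
      refine h.c2 true (m0 i j b) (2 * i) ?_ _ _ (he b) hi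
      rw [el_m0, el_two]
      exact ⟨rfl, rfl⟩
    have hp2 : ∀ b, PP false (e b) y := by
      intro b
      refine h.c2 false (m0 i j b) (2 * j) ?_ _ _ (he b) hj
      rw [el_m0, el_two]
      exact ⟨rfl, rfl⟩
    obtain ⟨z1, a1, a2, a3, a4⟩ := pairfib h hx hy (hp1 false) (hp2 false)
    have hz1 : e true = z1 := by
      rcases a4 _ (hp1 true) (hp2 true) with e' | e'
      · exact absurd e'.symm hne
      · exact e'
    refine ⟨e, hne, fun b => ⟨hp1 b, hp2 b⟩, ?_, ?_, ?_⟩
    · intro w hw hw'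
      rcases a4 w hw hw' with e' | e'
      · exact ⟨false, e'⟩
      · exact ⟨true, e'.trans hz1.symm⟩
    · intro i' j' m b hi' hj' hm
      have e1 := idx_unique h hi hi'
      have e2 := idx_unique h hj hj'
      subst e1 e2
      refine NN_trans h ?_ (he b)
      rw [hm, el_m0]
    · intro i' s hi' hs
      have e2 := idx_unique h hj hi'
      subst e2
      exact h.d4 (m0 i j false) j i s (el_m0 i j false) hs _ (he false)
  · by_cases hB : ∃ i s, NN (2 * i) y ∧ active i s = true
    · obtain ⟨i, s, hi, hs⟩ := hB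
      obtain ⟨z0, a1, a2, a3, _⟩ := h.d2 i s hs x y hx hi
      obtain ⟨z1, c1, c2, c3, c4⟩ := pairfib h hx hy a1 a2
      refine ⟨fun b => bif b then z1 else z0, c1, ?_, ?_, ?_, ?_⟩
      · intro b
        cases b
        · exact ⟨a1, a2⟩
        · exact ⟨c2, c3⟩
      · intro w hw hw'
        rcases c4 w hw hw' with e' | e'
        · exact ⟨false, e'⟩
        · exact ⟨true, e'⟩
      · intro i' j' m b hi' hj' _
        exact absurd ⟨i', j', hi', hj'⟩ hA
      · intro i' s' hi' hs'
        have e2 := idx_unique h hi hi'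
        subst e2
        exact h.d3 i s s' hs hs' z0 a3
    · obtain ⟨z, z', a1, a2, a3, a4, a5, a6⟩ := h.b4 x y hx hy
      refine ⟨fun b => bif b then z' else z, a1, ?_, ?_, ?_, ?_⟩
      · intro b
        cases b
        · exact ⟨a2, a3⟩
        · exact ⟨a4, a5⟩
      · intro w hw hw'
        rcases a6 w hw hw' with e' | e'
        · exact ⟨false, e'⟩
        · exact ⟨true, e'⟩
      · intro i' j' m b hi' hj' _
        exact absurd ⟨i', j', hi', hj'⟩ hA
      · intro i' s' hi' hs'
        exact absurd ⟨i', s', hi', hs'⟩ hB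

theorem iso_of_ax (h : Ax M) : Nonempty (Mod (EM M) false ≃[L] M) := by
  classical
  choose cst hcst using fun i : ℕ => h.s1 (2 * i)
  have hcD : ∀ i, DM (cst i) := fun i w => h.c1 (2 * i) (by rw [el_two]; rfl) _ w (hcst i)
  have hfib : ∀ p : {x : M // DM x} × {x : M // DM x}, ∃ g : Bool → M,
      g false ≠ g true ∧ (∀ b, PP true (g b) p.1.1 ∧ PP false (g b) p.2.1) ∧
      (∀ w, PP true w p.1.1 → PP false w p.2.1 → ∃ b, w = g b) ∧
      (∀ i j m b, NN (2 * i) p.1.1 → NN (2 * j) p.2.1 →
        el (E := Empty) m = Sum.inr (Sum.inl i, Sum.inl j, b) → NN m (g b)) ∧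
      (∀ i s, NN (2 * i) p.2.1 → active i s = true → UU i s (g false)) :=
    fun p => fib h p.1.2 p.2.2
  choose G g1 g2 g3 g4 g5 using hfib
  let FD : D (EM M) → {x : M // DM x} :=
    Sum.elim (fun i => ⟨cst i, hcD i⟩) fun e => ⟨e.1, e.2.1⟩
  have FDinj : Function.Injective FD := by
    rintro (i | e) (j | e') hh
    · have : cst i = cst j := congrArg Subtype.val hh
      have h2 := hcst i
      rw [this] at h2
      rw [idx_unique h h2 (hcst j)]
    · have : cst i = e'.1 := congrArg Subtype.val hh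
      exact absurd (this ▸ hcst i) (e'.2.2 i)
    · have : e.1 = cst j := congrArg Subtype.val hh
      exact absurd (this ▸ hcst j) (e.2.2 j)
    · have : e.1 = e'.1 := congrArg (fun z : {x : M // DM x} => z.1) hh
      have h2 : e = e' := Subtype.ext this
      rw [h2]
  have FDsurj : Function.Surjective FD := by
    rintro ⟨x, hx⟩
    by_cases hn : ∃ i, NN (2 * i) x
    · obtain ⟨i, hi⟩ := hn
      refine ⟨Sum.inl i, Subtype.ext ?_⟩
      exact h.s2 (2 * i) (2 * i) rfl _ _ (hcst i) hi
    · push Not at hn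
      exact ⟨Sum.inr ⟨x, hx, hn⟩, rfl⟩
  let F : X (EM M) → M := Sum.elim (fun p => (FD p).1) fun t => G (FD t.1, FD t.2.1) t.2.2
  have Finr : ∀ p q b, F (Sum.inr (p, q, b)) = G (FD p, FD q) b := fun _ _ _ => rfl
  have Finl : ∀ p, F (Sum.inl p) = (FD p).1 := fun _ => rfl
  -- projections
  have hP1 : ∀ p q b, PP true (F (Sum.inr (p, q, b))) (F (Sum.inl p)) := fun p q b =>
    (g2 (FD p, FD q) b).1
  have hP2 : ∀ p q b, PP false (F (Sum.inr (p, q, b))) (F (Sum.inl q)) := fun p q b =>
    (g2 (FD p, FD q) b).2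
  have hD : ∀ p w, ¬ PP true (F (Sum.inl p)) w := fun p w => (FD p).2 w
  have Finlinj : ∀ p q, F (Sum.inl p) = F (Sum.inl q) → p = q := fun p q e =>
    FDinj (Subtype.ext e)
  have Finj : Function.Injective F := by
    rintro (p | ⟨p, q, b⟩) (p' | ⟨p', q', b'⟩) hh
    · rw [Finlinj p p' hh]
    · exact absurd (hh ▸ hP1 p' q' b') (hD p _)
    · exact absurd (hh ▸ hP1 p q b) (hD p' _)
    · have e1 : p = p' := Finlinj _ _ (h.b2 true _ _ _ (hP1 p q b) (hh ▸ hP1 p' q' b'))
      have e2 : q = q' := Finlinj _ _ (h.b2 false _ _ _ (hP2 p q b) (hh ▸ hP2 p' q' b'))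
      subst e1 e2
      rw [Finr, Finr] at hh
      have := g1 (FD p, FD q)
      cases b <;> cases b'
      · rfl
      · exact absurd hh this
      · exact absurd hh.symm this
      · rfl
  have Fsurj : Function.Surjective F := by
    intro x
    by_cases hx : DM x
    · obtain ⟨p, hp⟩ := FDsurj ⟨x, hx⟩
      exact ⟨Sum.inl p, congrArg Subtype.val hp⟩
    · have hx' : ∃ w, PP true x w := by
        by_contra hc
        push Not at hc
        exact hx hc
      obtain ⟨y, hy⟩ := hx'
      obtain ⟨z, hz⟩ := h.b1 true x y hy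
      have hz' : PP false x z := hz
      obtain ⟨p, hp⟩ := FDsurj ⟨y, fun w => h.b3 true true x y w hy⟩
      obtain ⟨q, hq⟩ := FDsurj ⟨z, fun w => h.b3 false true x z w hz'⟩
      obtain ⟨b, hb⟩ := g3 (FD p, FD q) x (by rw [hp]; exact hy) (by rw [hq]; exact hz')
      exact ⟨Sum.inr (p, q, b), hb.symm⟩
  have hNel : ∀ m, NN m (F (el m)) := by
    intro m
    rcases el_cases m with ⟨i, hi⟩ | ⟨i, j, b, hi⟩
    · rw [hi]
      exact NN_trans h ((hi Empty).trans (el_two i).symm) (hcst i)
    · rw [hi]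
      exact g4 (FD (Sum.inl i), FD (Sum.inl j)) i j m b (hcst i) (hcst j) (hi Empty)
  have hN : ∀ m (x : X (EM M)), NN m (F x) ↔ x = el m := by
    intro m x
    constructor
    · intro hx
      exact Finj (h.s2 m m rfl _ _ hx (hNel m))
    · rintro rfl
      exact hNel m
  have hP : ∀ c (z x : X (EM M)), PP c (F z) (F x) ↔ R2 (EM M) c z x := by
    intro c z x
    constructor
    · intro hzx
      have hz : ∃ y, PP true (F z) y := by
        cases c
        · exact h.b1 false _ _ hzx
        · exact ⟨_, hzx⟩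
      obtain ⟨y, hy⟩ := hz
      rcases z with p | ⟨p, q, b⟩
      · exact absurd hy (hD p y)
      · refine ⟨rfl, ?_⟩
        cases c
        · exact Finj (h.b2 false _ _ _ hzx (hP2 p q b))
        · exact Finj (h.b2 true _ _ _ hzx (hP1 p q b))
    · rintro ⟨h1, h2⟩
      rcases z with p | ⟨p, q, b⟩
      · cases h1
      · rw [h2]
        cases c
        · exact hP2 p q b
        · exact hP1 p q b
  have hU : ∀ i s (x : X (EM M)), UU i s (F x) ↔
      active i s = true ∧ x = Sum.inr (fst' x, Sum.inl i, false) := by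
    intro i s x
    constructor
    · intro hx
      have ha : active i s = true := by
        by_contra hc
        exact h.d0 i s (by simpa using hc) _ hx
      refine ⟨ha, ?_⟩
      obtain ⟨y, hy1, hy2⟩ := h.d1 i s _ hx
      have hyc : y = F (Sum.inl (Sum.inl i)) := h.s2 (2 * i) (2 * i) rfl _ _ hy1 (hcst i)
      rw [hyc] at hy2
      have hR := (hP false _ _).1 hy2
      rcases x with p | ⟨p, q, b⟩
      · cases hR.1
      · have hq : q = Sum.inl i := (Sum.inl_injective hR.2).symm
        subst hq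
        cases b
        · rfl
        · exfalso
          obtain ⟨z, c1, c2, c3, c4⟩ := h.d2 i s ha (F (Sum.inl p)) (F (Sum.inl (Sum.inl i)))
            (hD p) (hcst i)
          have e1 := c4 _ (hP1 p _ true) (hP2 p _ true) hx
          have e2 := c4 _ (hP1 p _ false) (hP2 p (Sum.inl i) false)
            (g5 (FD p, FD (Sum.inl i)) i s (hcst i) ha)
          have := Finj (e1.trans e2.symm)
          simp at this
    · rintro ⟨ha, hx⟩
      rw [hx, Finr]
      exact g5 (FD _, FD (Sum.inl i)) i s (hcst i) ha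
  refine ⟨⟨Equiv.ofBijective F ⟨Finj, Fsurj⟩, ?_, ?_⟩⟩
  · intro n f
    exact f.elim
  · intro n R xs
    cases R with
    | un k =>
      have hv : (fun i => F (xs i)) = ![F (xs 0)] := by
        funext i
        rw [Subsingleton.elim i 0]
        rfl
      have hk : k = Nat.pair k.unpair.1 k.unpair.2 := (Nat.pair_unpair k).symm
      change Structure.RelMap (un k) (fun i => F (xs i)) ↔ R1 (EM M) false k (xs 0)
      rw [hv]
      unfold R1
      generalize k.unpair.1 = a at *
      generalize k.unpair.2 = b at *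
      subst hk
      cases a with
      | zero => exact hN b (xs 0)
      | succ s =>
        have := hU b s (xs 0)
        simp only [Bool.and_false, Bool.false_and]
        exact this
    | bi c =>
      have hv : (fun i => F (xs i)) = ![F (xs 0), F (xs 1)] := by
        funext i
        fin_cases i <;> rfl
      change Structure.RelMap (bi c) (fun i => F (xs i)) ↔ R2 (EM M) c (xs 0) (xs 1)
      rw [hv]
      exact hP c (xs 0) (xs 1)

end

def ix : D Empty → ℕ := Sum.elim id fun e => e.elim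
def incD {E : Type} (p : D Empty) : D E := Sum.inl (ix p)
def inc {E : Type} : X Empty → X E :=
  Sum.elim (fun p => Sum.inl (incD p)) fun t => Sum.inr (incD t.1, incD t.2.1, t.2.2)

theorem ix_inl (p : D Empty) : p = Sum.inl (ix p) := by
  rcases p with i | e
  · rfl
  · exact e.elim

def cb (x : X Empty) : ℕ := max (ix (fst' x)) (ix (snd' x))

theorem form_iff {E : Type} (t : Bool) {α : Type} (φ : L.Formula α) (w : α → X E) :
    Formula.Realize (M := Mod E t) φ w ↔ BR (E := E) t (fun _ => True) φ w Fin.elim0 := by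
  have h := realize_iff t φ (v := w) (xs := Fin.elim0)
  have h3 : Formula.Realize (M := Mod E t) φ w ↔
      BoundedFormula.Realize (M := Mod E t) φ w Fin.elim0 := by
    unfold Formula.Realize
    rw [Subsingleton.elim (default : Fin 0 → Mod E t) Fin.elim0]
  exact h3.trans h

theorem emb_realize {E : Type} {α : Type} [Encodable α] (v : α → X Empty) (N : ℕ)
    (hN : ∀ a, cb (v a) < N) (φ : L.Formula α) :
    Formula.Realize (M := Mod Empty false) φ v ↔
      Formula.Realize (M := Mod E false) φ (fun a => inc (v a)) := by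
  refine (form_iff false φ v).trans (Iff.trans ?_ (form_iff false φ _).symm)
  set K := code φ + 1 + N with hK
  have hmem : ∀ a, a ∈ (List.range K).map (fun i => ((Sum.inl i : D Empty), (Sum.inl i : D E))) ↔
      ∃ i < K, a = (Sum.inl i, Sum.inl i) := by
    intro a
    rw [List.mem_map]
    constructor
    · rintro ⟨i, hi, rfl⟩
      exact ⟨i, List.mem_range.1 hi, rfl⟩
    · rintro ⟨i, hi, rfl⟩
      exact ⟨i, List.mem_range.2 hi, rfl⟩
  refine ef false false (fun _ => True) (fun _ => True) K φ (by omega)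
    ((List.range K).map fun i => (Sum.inl i, Sum.inl i)) ?_ (rich_of fun _ _ => trivial)
    (rich_of fun _ _ => trivial) v _ Fin.elim0 Fin.elim0 ?_ (fun i => i.elim0)
  · refine ⟨?_, ?_, ?_, ?_, ?_, ?_⟩
    · intro a ha b hb
      obtain ⟨i, _, rfl⟩ := (hmem a).1 ha
      obtain ⟨j, _, rfl⟩ := (hmem b).1 hb
      simp
    · intro a ha j _
      obtain ⟨i, _, rfl⟩ := (hmem a).1 ha
      simp
    · intro a ha
      simp
    · intro a ha
      exact ⟨trivial, trivial⟩
    · intro p _ hp
      refine ⟨?_, by simp⟩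
      rintro i hi rfl
      exact hp (Sum.inl i, Sum.inl i) ((hmem _).2 ⟨i, hi, rfl⟩) rfl
    · intro p _ hp
      refine ⟨?_, by simp⟩
      rintro i hi rfl
      exact hp (Sum.inl i, Sum.inl i) ((hmem _).2 ⟨i, hi, rfl⟩) rfl
  · intro a _
    have h := hN a
    unfold cb at h
    have h1 : ix (fst' (v a)) < K := by
      have := le_max_left (ix (fst' (v a))) (ix (snd' (v a)))
      omega
    have h2 : ix (snd' (v a)) < K := by
      have := le_max_right (ix (fst' (v a))) (ix (snd' (v a)))
      omega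
    generalize v a = x at *
    rcases x with p | ⟨p, q, b⟩
    · refine ⟨rfl, (hmem _).2 ⟨ix p, h1, ?_⟩, (hmem _).2 ⟨ix p, h1, ?_⟩, rfl⟩
      · exact Prod.ext (ix_inl p) rfl
      · exact Prod.ext (ix_inl p) rfl
    · refine ⟨rfl, (hmem _).2 ⟨ix p, h1, ?_⟩, (hmem _).2 ⟨ix q, h2, ?_⟩, rfl⟩
      · exact Prod.ext (ix_inl p) rfl
      · exact Prod.ext (ix_inl q) rfl

theorem model_Mod (E : Type) : Mod E false ⊨ Th := by
  refine Theory.model_iff _ |>.2 fun φ hφ => ?_
  have h : Pr ⊨ φ := (mem_completeTheory (M := Pr)).1 hφ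
  have h2 := (emb_realize (E := E) (α := Empty) (fun a => a.elim) 0 (fun a => a.elim) φ)
  have e1 : (default : Empty → Mod Empty false) = (fun a : Empty => (a.elim : X Empty)) :=
    Subsingleton.elim _ _
  have h3 : Formula.Realize (M := Mod Empty false) φ (fun a : Empty => (a.elim : X Empty)) :=
    e1 ▸ h
  have h4 := h2.1 h3
  have e2 : (fun a : Empty => inc (E := E) (a.elim : X Empty)) = (default : Empty → Mod E false) :=
    Subsingleton.elim _ _
  change Formula.Realize (M := Mod E false) φ (default : Empty → Mod E false)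
  rw [← e2]
  exact h4

/-- the elementary embedding of the prime model -/
theorem emb_Mod (E : Type) : Nonempty (Pr ↪ₑ[L] Mod E false) := by
  refine ⟨⟨inc (E := E), ?_⟩⟩
  intro n φ x
  refine (emb_realize (E := E) (α := Fin n) x ((∑ a, cb (x a)) + 1) (fun a => ?_) φ).symm
  have := Finset.single_le_sum (f := fun a => cb (x a)) (fun i _ => Nat.zero_le _)
    (Finset.mem_univ a)
  exact Nat.lt_succ_of_le this

theorem emb_model {M : Type} [L.Structure M] (hM : M ⊨ Th) : Nonempty (Pr ↪ₑ[L] M) := by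
  obtain ⟨e⟩ := iso_of_ax (ax_of_model hM)
  obtain ⟨f⟩ := emb_Mod (EM M)
  exact ⟨e.toElementaryEmbedding.comp f⟩

/-- models with equinumerous sets of extra points are isomorphic -/
def isoD {E E' : Type} (e : E ≃ E') : Mod E false ≃[L] Mod E' false := by
  let d : D E ≃ D E' := Equiv.sumCongr (Equiv.refl ℕ) e
  let f : X E ≃ X E' := Equiv.sumCongr d (Equiv.prodCongr d (Equiv.prodCongr d (Equiv.refl Bool)))
  refine ⟨f, ?_, ?_⟩
  · intro n f
    exact f.elim
  · intro n R xs
    have hf1 : ∀ x : X E, fst' (f x) = d (fst' x) := by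
      intro x; rcases x with p | ⟨p, q, b⟩ <;> rfl
    have hf2 : ∀ x : X E, snd' (f x) = d (snd' x) := by
      intro x; rcases x with p | ⟨p, q, b⟩ <;> rfl
    have hfr : ∀ x : X E, (f x).isRight = x.isRight := by
      intro x; rcases x with p | ⟨p, q, b⟩ <;> rfl
    have H1 : ∀ (k : ℕ) (x : X E), R1 E' false k (f x) ↔ R1 E false k x := by
      intro k x
      unfold R1
      cases k.unpair.1 with
      | zero =>
        have : nuOf (E := E') Sum.inl k.unpair.2 = f (nuOf Sum.inl k.unpair.2) := by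
          unfold nuOf
          cases k.unpair.2.bodd <;> rfl
        simp only
        rw [this]
        exact f.injective.eq_iff
      | succ s =>
        simp only [Bool.and_false, Bool.false_and]
        rw [hf1]
        have : (Sum.inr (d (fst' x), Sum.inl k.unpair.2, false) : X E') =
          f (Sum.inr (fst' x, Sum.inl k.unpair.2, false)) := rfl
        rw [this]
        exact and_congr Iff.rfl f.injective.eq_iff
    have H2 : ∀ (c : Bool) (z x : X E), R2 E' c (f z) (f x) ↔ R2 E c z x := by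
      intro c z x
      unfold R2
      rw [hfr]
      refine and_congr Iff.rfl ?_
      have : (Sum.inl (bif c then fst' (f z) else snd' (f z)) : X E') =
          f (Sum.inl (bif c then fst' z else snd' z)) := by
        rw [hf1, hf2]
        cases c <;> rfl
      rw [this]
      exact f.injective.eq_iff
    cases R with
    | un k => exact H1 k (xs 0)
    | bi c => exact H2 c (xs 0) (xs 1)

open Cardinal in
theorem card_X (E : Type) : #(X E) = (ℵ₀ + #E) + (ℵ₀ + #E) * ((ℵ₀ + #E) * 2) := by
  simp only [X, D, mk_sum, mk_prod, lift_id, mk_nat, mk_bool]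

open Cardinal in
theorem card_of_unc {E : Type} (h : ℵ₀ < #(X E)) : #E = #(X E) := by
  have h1 : ℵ₀ ≤ #E := by
    by_contra hc
    push Not at hc
    have h2 : ℵ₀ + #E = ℵ₀ := by
      rw [add_eq_max le_rfl]; exact max_eq_left hc.le
    rw [card_X, h2] at h
    have h3 : (ℵ₀ : Cardinal.{0}) + ℵ₀ * (ℵ₀ * 2) = ℵ₀ := by
      have : (ℵ₀ : Cardinal.{0}) * 2 = ℵ₀ := aleph0_mul_ofNat
      rw [this, aleph0_mul_aleph0, aleph0_add_aleph0]
    rw [h3] at h
    exact lt_irrefl _ h
  have h2 : ℵ₀ + #E = #E := by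
    rw [add_comm]; exact add_eq_left h1 h1
  rw [card_X, h2]
  have h3 : #E * 2 = #E := by
    refine mul_eq_left h1 ?_ (by norm_num)
    exact le_trans (Cardinal.natCast_lt_aleph0 (n := 2)).le h1
  rw [h3, mul_eq_self h1, add_eq_self h1]

open Cardinal in
theorem categorical_Th (κ : Cardinal.{0}) (hκ : ℵ₀ < κ) :
    κ.Categorical Th ∧ ∃ M : Th.ModelType, #M = κ := by
  constructor
  · intro M N hM hN
    obtain ⟨e⟩ := iso_of_ax (ax_of_model (M := M) M.is_model)
    obtain ⟨f⟩ := iso_of_ax (ax_of_model (M := N) N.is_model)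
    have h1 : #(X (EM M)) = κ := by
      rw [← hM]; exact mk_congr e.toEquiv
    have h2 : #(X (EM N)) = κ := by
      rw [← hN]; exact mk_congr f.toEquiv
    have h3 : #(EM M) = #(EM N) := by
      rw [card_of_unc (E := EM M) (by rw [h1]; exact hκ),
        card_of_unc (E := EM N) (by rw [h2]; exact hκ), h1, h2]
    obtain ⟨g⟩ := Cardinal.eq.1 h3
    exact ⟨(f.comp (isoD g)).comp e.symm⟩
  · have := model_Mod κ.out
    have : Nonempty (Mod κ.out false) := ⟨(Sum.inl (Sum.inl 0) : X κ.out)⟩
    refine ⟨Theory.ModelType.mk (Mod κ.out false), ?_⟩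
    change #(X κ.out) = κ
    have hout : #κ.out = κ := mk_out κ
    have hle : κ ≤ #(X κ.out) := by
      have h1 : #κ.out ≤ #(X κ.out) :=
        mk_le_of_injective (f := fun a => (Sum.inl (Sum.inr a) : X κ.out))
          (fun a b h => Sum.inr_injective (Sum.inl_injective h))
      rwa [hout] at h1
    rw [← card_of_unc (lt_of_lt_of_le hκ hle), hout]

/-! ## Prime models -/

theorem el_surj (x : X Empty) : ∃ k, x = el k := by
  rcases x with p | ⟨p, q, b⟩
  · exact ⟨2 * ix p, by rw [el_two, ← ix_inl p]⟩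
  · exact ⟨m0 (ix p) (ix q) b, by rw [el_m0, ← ix_inl p, ← ix_inl q]⟩

theorem prime_Pr : IsPrimeModel Th Pr := by
  refine ⟨⟨(Sum.inl (Sum.inl 0) : X Empty)⟩, ?_, model_Mod Empty, ?_⟩
  · exact (inferInstance : Countable (X Empty))
  · intro N _ _ hN
    exact emb_model hN

theorem computable_find {p : ℕ → ℕ → Bool} (hp : Computable₂ p) (h : ∀ n, ∃ w, p n w = true) :
    ∃ f : ℕ → ℕ, Computable f ∧ ∀ n, p n (f n) = true := by
  classical
  refine ⟨fun n => Nat.find (h n), ?_, fun n => Nat.find_spec (h n)⟩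
  have h1 : Partrec fun n => Nat.rfind fun w => Part.some (p n w) := by
    refine Partrec.rfind ?_
    exact hp.partrec₂
  refine Partrec.of_eq_tot h1 fun n => ?_
  refine Nat.mem_rfind.2 ⟨?_, ?_⟩
  · exact Part.mem_some_iff.2 (Nat.find_spec (h n)).symm
  · intro m hm
    have := Nat.find_min (h n) hm
    exact Part.mem_some_iff.2 (by simpa using this)

/-- the formula `N_k(x_n)` -/
def nf {α : Type} (k : ℕ) (n : α) : L.Formula α :=
  BoundedFormula.rel (un (Nat.pair 0 k)) fun _ => Term.var (Sum.inl n)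

theorem code_nf (k n : ℕ) : code (nf k n) = Nat.pair 2 (Nat.pair (Nat.pair 0 k) (2 * n)) := rfl

theorem nf_realize {α : Type} {M : Type} [L.Structure M] (k : ℕ) (n : α) (v : α → M) :
    (nf k n).Realize v ↔ NN k (v n) := by
  unfold NN nf Formula.Realize
  simp only [BoundedFormula.Realize]
  have : (fun i : Fin 1 => (Term.var (Sum.inl n) : L.Term (α ⊕ Fin 0)).realize
      (Sum.elim v default)) = ![v n] := by
    funext i
    rw [Subsingleton.elim i 0]
    rfl
  rw [this]

theorem prime_autostable {Q : Type} [L.Structure Q] (hQ : IsPrimeModel Th Q) :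
    StronglyAutostable Q := by
  obtain ⟨_, _, hm, hemb⟩ := hQ
  have hax := ax_of_model hm
  have : Nonempty Pr := prime_Pr.1
  obtain ⟨e⟩ := hemb Pr (model_Mod Empty)
  have hname : ∀ q : Q, ∃ k, NN k q := by
    intro q
    obtain ⟨k, hk⟩ := el_surj (e q)
    refine ⟨k, ?_⟩
    have h1 : NN (M := Pr) k (e q) := (NN_iff (t := false) k _).2 hk
    unfold NN at h1 ⊢
    have h2 := e.map_rel (un (Nat.pair 0 k)) ![q]
    have h3 : (e ∘ ![q]) = ![e q] := by
      funext i
      rw [Subsingleton.elim i 0]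
      rfl
    rw [h3] at h2
    exact h2.1 h1
  intro ν μ hν hμ
  obtain ⟨hνs, fν, cν, dν⟩ := hν
  obtain ⟨hμs, fμ, cμ, dμ⟩ := hμ
  let p : ℕ → ℕ → Bool := fun n w =>
    fν (Nat.pair 2 (Nat.pair (Nat.pair 0 w.unpair.1) (2 * n))) &&
      fμ (Nat.pair 2 (Nat.pair (Nat.pair 0 w.unpair.1) (2 * w.unpair.2)))
  have hpc : Computable₂ p := by
    have hw : Primrec fun q : ℕ × ℕ => q.2.unpair := Primrec.unpair.comp Primrec.snd
    have h1 : Primrec fun q : ℕ × ℕ =>
        Nat.pair 2 (Nat.pair (Nat.pair 0 q.2.unpair.1) (2 * q.1)) :=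
      Primrec₂.natPair.comp (Primrec.const 2) (Primrec₂.natPair.comp
        (Primrec₂.natPair.comp (Primrec.const 0) (Primrec.fst.comp hw))
        (Primrec.nat_mul.comp (Primrec.const 2) Primrec.fst))
    have h2 : Primrec fun q : ℕ × ℕ =>
        Nat.pair 2 (Nat.pair (Nat.pair 0 q.2.unpair.1) (2 * q.2.unpair.2)) :=
      Primrec₂.natPair.comp (Primrec.const 2) (Primrec₂.natPair.comp
        (Primrec₂.natPair.comp (Primrec.const 0) (Primrec.fst.comp hw))
        (Primrec.nat_mul.comp (Primrec.const 2) (Primrec.snd.comp hw)))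
    exact (Primrec.and.to_comp.comp (cν.comp h1.to_comp) (cμ.comp h2.to_comp)).to₂
  have hpe : ∀ n w, p n w = true ↔ NN w.unpair.1 (ν n) ∧ NN w.unpair.1 (μ w.unpair.2) := by
    intro n w
    have e1 := (dν (nf w.unpair.1 n)).trans (nf_realize _ _ _)
    have e2 := (dμ (nf w.unpair.1 w.unpair.2)).trans (nf_realize _ _ _)
    rw [code_nf] at e1 e2
    rw [← e1, ← e2]
    simp [p]
  obtain ⟨f, hf, hfp⟩ := computable_find hpc (fun n => by
    obtain ⟨k, hk⟩ := hname (ν n)
    obtain ⟨m, hm'⟩ := hμs (ν n)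
    refine ⟨Nat.pair k m, ?_⟩
    rw [hpe]
    simp only [Nat.unpair_pair]
    exact ⟨hk, hm'.symm ▸ hk⟩)
  refine ⟨FirstOrder.Language.Equiv.refl L Q, fun n => (f n).unpair.2, ?_, ?_⟩
  · exact (Primrec.snd.comp Primrec.unpair).to_comp.comp hf
  · intro n
    obtain ⟨a1, a2⟩ := (hpe n (f n)).1 (hfp n)
    exact hax.s2 _ _ rfl _ _ a1 a2

/-! ## The model with one extra point -/

/-- The model. -/
abbrev A1 : Type := Mod Unit false

theorem dU_surj : Function.Surjective dU := by
  rintro (i | ⟨⟩)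
  · exact ⟨i + 1, rfl⟩
  · exact ⟨0, rfl⟩

theorem nuOf_surj {E : Type} {dn : ℕ → D E} (h : Function.Surjective dn) :
    Function.Surjective (nuOf dn) := by
  rintro (p | ⟨p, q, b⟩)
  · obtain ⟨i, rfl⟩ := h p
    refine ⟨2 * i, ?_⟩
    simp [nuOf, Nat.div2_val]
  · obtain ⟨i, rfl⟩ := h p
    obtain ⟨j, rfl⟩ := h q
    refine ⟨Nat.bit true (Nat.pair i (Nat.pair j b.toNat)), ?_⟩
    have hc : b.toNat.bodd = b := by cases b <;> rfl
    unfold nuOf
    rw [Nat.bodd_bit, Nat.div2_bit]
    simp only [cond_true, Nat.unpair_pair, hc]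

theorem nuU_surj : Function.Surjective nuU := nuOf_surj dU_surj

theorem nuU_zU (i : ℕ) (b : Bool) : nuU (zU i b) = Sum.inr (Sum.inr (), Sum.inl i, b) := by
  have hc : b.toNat.bodd = b := by cases b <;> rfl
  unfold nuU nuOf zU
  rw [Nat.bodd_bit, Nat.div2_bit]
  simp only [cond_true, Nat.unpair_pair, hc]
  rfl

theorem stage_unique {i s s' y y' : ℕ} (h : stage i s = some y) (h' : stage i s' = some y') :
    y = y' := by
  unfold stage at h h'
  rcases le_total s s' with hs | hs
  · have := Nat.Partrec.Code.evaln_mono hs (Option.mem_def.2 h)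
    rw [Option.mem_def, h'] at this
    exact (Option.some_injective _ this).symm
  · have := Nat.Partrec.Code.evaln_mono hs (Option.mem_def.2 h')
    rw [Option.mem_def, h] at this
    exact (Option.some_injective _ this)

theorem tbit_unique {i s s' : ℕ} (h : active i s = true) (h' : active i s' = true) :
    tbit i s = tbit i s' := by
  unfold active at h h'
  rw [Option.isSome_iff_exists] at h h'
  obtain ⟨y, hy⟩ := h
  obtain ⟨y', hy'⟩ := h'
  have := stage_unique hy hy'
  subst this
  unfold tbit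
  rw [hy, hy']

open Classical in
/-- the limit bit -/
noncomputable def bet (i : ℕ) : Bool :=
  if h : ∃ s, active i s = true then tbit i h.choose else false

theorem bet_eq {i s : ℕ} (h : active i s = true) : bet i = tbit i s := by
  have hex : ∃ s, active i s = true := ⟨s, h⟩
  unfold bet
  rw [dif_pos hex]
  exact tbit_unique hex.choose_spec h

/-- the bit added -/
noncomputable def addb : D Unit → D Unit → Bool
  | Sum.inr _, Sum.inl i => bet i
  | _, _ => false

/-- the twisting permutation -/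
noncomputable def psi : X Unit → X Unit
  | Sum.inl p => Sum.inl p
  | Sum.inr (p, q, b) => Sum.inr (p, q, xor b (addb p q))

theorem psi_psi (x : X Unit) : psi (psi x) = x := by
  rcases x with p | ⟨p, q, b⟩
  · rfl
  · simp [psi]

theorem psi_inj : Function.Injective psi := fun x y h => by
  rw [← psi_psi x, h, psi_psi]

theorem psi_fst (x : X Unit) : fst' (psi x) = fst' x := by
  rcases x with p | ⟨p, q, b⟩ <;> rfl

theorem psi_snd (x : X Unit) : snd' (psi x) = snd' x := by
  rcases x with p | ⟨p, q, b⟩ <;> rfl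

theorem psi_isRight (x : X Unit) : (psi x).isRight = x.isRight := by
  rcases x with p | ⟨p, q, b⟩ <;> rfl

theorem psi_el (m : ℕ) : psi (el m) = el m := by
  rcases el_cases m with ⟨i, hi⟩ | ⟨i, j, b, hi⟩
  · rw [hi]; rfl
  · rw [hi]; simp [psi, addb]

theorem addb_eq (p : D Unit) (i : ℕ) : addb p (Sum.inl i) = (p.isRight && bet i) := by
  rcases p with j | u <;> rfl

theorem psi_R1 (k : ℕ) (x : X Unit) : R1 Unit false k (psi x) ↔ R1 Unit true k x := by
  unfold R1
  generalize k.unpair.2 = i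
  cases k.unpair.1 with
  | zero =>
    change psi x = el i ↔ x = el i
    constructor
    · intro h
      rw [← psi_psi x, h, psi_el]
    · rintro rfl
      exact psi_el i
  | succ s =>
    simp only [Bool.and_false, Bool.false_and, Bool.and_true]
    constructor
    · rintro ⟨h1, h2⟩
      refine ⟨h1, ?_⟩
      have h3 := congrArg psi h2
      rw [psi_psi, psi_fst] at h3
      have h4 : psi (Sum.inr (fst' x, Sum.inl i, false)) =
          Sum.inr (fst' x, Sum.inl i, xor false (addb (fst' x) (Sum.inl i))) := rfl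
      rw [h4, addb_eq, bet_eq h1, Bool.false_xor] at h3
      exact h3
    · rintro ⟨h1, h2⟩
      refine ⟨h1, ?_⟩
      rw [psi_fst]
      have h3 := congrArg psi h2
      have h4 : ∀ b, psi (Sum.inr (fst' x, Sum.inl i, b)) =
          Sum.inr (fst' x, Sum.inl i, xor b (addb (fst' x) (Sum.inl i))) := fun _ => rfl
      rw [h4, addb_eq, bet_eq h1, Bool.xor_self] at h3
      exact h3

theorem psi_R2 (c : Bool) (z x : X Unit) : R2 Unit c (psi z) (psi x) ↔ R2 Unit c z x := by
  unfold R2
  rw [psi_isRight, psi_fst, psi_snd]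
  refine and_congr Iff.rfl ?_
  have : ∀ p : D Unit, (Sum.inl p : X Unit) = psi (Sum.inl p) := fun p => rfl
  rw [this, psi_inj.eq_iff]
  rfl

/-- the isomorphism from the twisted to the untwisted structure -/
noncomputable def psiE : Mod Unit true ≃[L] Mod Unit false := by
  refine ⟨(⟨psi, psi, psi_psi, psi_psi⟩ : X Unit ≃ X Unit), ?_, ?_⟩
  · intro n f
    exact f.elim
  · intro n R xs
    cases R with
    | un k => exact psi_R1 k (xs 0)
    | bi c => exact psi_R2 c (xs 0) (xs 1)

theorem dU_bound (m i : ℕ) (h : dU m = Sum.inl i) : i ≤ m := by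
  cases m with
  | zero => cases h
  | succ m =>
    have : m = i := Sum.inl_injective h
    omega

theorem diag_U (t : Bool) : ComputableSet {φ : L.Formula ℕ |
    Formula.Realize (M := Mod Unit t) φ nuU} :=
  computable_diag (E := Unit) (es := [()]) (fun _ => by simp) t dU_prim dU_bound nuU
    (fun _ => rfl)

theorem strong1 : StrongConstr (M := A1) nuU := ⟨nuU_surj, diag_U false⟩

theorem strong2 : StrongConstr (M := A1) (fun n => psi (nuU n)) := by
  refine ⟨?_, ?_⟩
  · intro (x : X Unit)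
    obtain ⟨n, hn⟩ := nuU_surj (psi x)
    have h : psi (nuU n) = x := by rw [hn, psi_psi]
    exact ⟨n, h⟩
  · obtain ⟨f, hf, h⟩ := diag_U true
    refine ⟨f, hf, fun φ => (h φ).trans ?_⟩
    have h := StrongHomClass.realize_formula (M := Mod Unit true) (N := Mod Unit false) psiE φ
      (v := (nuU : ℕ → Mod Unit true))
    exact h.symm

theorem not_auto : ¬ AutoEquivalent (M := A1) nuU (fun n => psi (nuU n)) := by
  rintro ⟨g, f, hf, hfg⟩
  obtain ⟨c, hc⟩ := Nat.Partrec.Code.exists_code.1 (Partrec.nat_iff.1 hf.partrec)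
  set i := Encodable.encode c with hi
  set n := zU i false with hn
  have hfn : f n ∈ Nat.Partrec.Code.eval c n := by
    rw [hc]
    exact Part.mem_some _
  obtain ⟨s, hs⟩ := Nat.Partrec.Code.evaln_complete.1 hfn
  have hst : stage i s = some (f n) := by
    unfold stage
    rw [hi, Denumerable.ofNat_encode]
    exact hs
  have hact : active i s = true := by
    unfold active
    rw [hst]
    rfl
  -- the automorphism preserves everything
  have gN : ∀ k (x : A1), NN k (g x) ↔ NN k x := by
    intro k x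
    unfold NN
    have h2 := StrongHomClass.map_rel g (un (Nat.pair 0 k)) ![x]
    have h3 : (g ∘ ![x]) = ![g x] := by
      funext i
      rw [Subsingleton.elim i 0]
      rfl
    rw [h3] at h2
    exact h2
  have gU : ∀ (x : A1), UU i s (g x) ↔ UU i s x := by
    intro x
    unfold UU
    have h2 := StrongHomClass.map_rel g (un (Nat.pair (s + 1) i)) ![x]
    have h3 : (g ∘ ![x]) = ![g x] := by
      funext i
      rw [Subsingleton.elim i 0]
      rfl
    rw [h3] at h2
    exact h2
  have gP : ∀ c (z x : A1), PP c (g z) (g x) ↔ PP c z x := by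
    intro c z x
    unfold PP
    have h2 := StrongHomClass.map_rel g (bi c) ![z, x]
    have h3 : (g ∘ ![z, x]) = ![g z, g x] := by
      funext i
      fin_cases i <;> rfl
    rw [h3] at h2
    exact h2
  let d : X Unit := Sum.inl (Sum.inr ())
  let gd : X Unit := g d
  have hgd : gd = d := by
    rcases hx : gd with (j | ⟨⟩) | ⟨p, q, b⟩
    · exfalso
      have h1 : NN (M := A1) (2 * j) (g d) := (NN_iff (t := false) (2 * j) gd).2 (by rw [hx, el_two])
      have h2 : d = el (2 * j) := (NN_iff (t := false) (2 * j) d).1 ((gN (2 * j) d).1 h1)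
      rw [el_two] at h2
      simp [d] at h2
    · rfl
    · exfalso
      obtain ⟨w, hw⟩ := g.toEquiv.surjective (Sum.inl p : X Unit)
      have hw' : (Sum.inl p : X Unit) = g w := hw.symm
      have h1 : R2 Unit true gd (Sum.inl p) := by
        rw [hx]; exact ⟨rfl, rfl⟩
      rw [hw'] at h1
      have h2 : R2 Unit true d w := (gP true d w).1 h1
      exact absurd h2.1 (by simp [d])
  let z : X Unit := Sum.inr (Sum.inr (), Sum.inl i, false)
  have hz : nuU n = z := nuU_zU i false
  let gz : X Unit := g z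
  have hUz : UU (M := A1) i s z := (UU_iff i s z).2 ⟨hact, by simp [z, fst']⟩
  have hUgz := (UU_iff (t := false) i s gz).1 ((gU z).2 hUz)
  have hPgz : R2 Unit true gz gd := (gP true z d).2 (⟨rfl, rfl⟩ : R2 Unit true z d)
  have hfst : fst' gz = Sum.inr () := by
    have h2 := hPgz.2
    rw [hgd] at h2
    exact (Sum.inl_injective h2).symm
  have hgz : gz = z := by
    rw [hUgz.2, hfst]
    simp [z]
  have hfin : z = psi (nuU (f n)) := by
    have := hfg n
    rw [hz] at this
    exact hgz.symm.trans this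
  have h5 : nuU (f n) = Sum.inr (Sum.inr (), Sum.inl i, bet i) := by
    rw [← psi_psi (nuU (f n)), ← hfin]
    simp [z, psi, addb]
  rw [bet_eq hact] at h5
  have h6 : tbit i s = decide (nuU (f n) ≠ nuU (zU i true)) := by
    unfold tbit
    rw [hst]
    rfl
  rw [nuU_zU] at h6
  cases hb : tbit i s
  · rw [hb] at h5 h6
    rw [h5] at h6
    simp at h6
  · rw [hb] at h5 h6
    rw [h5] at h6
    simp at h6

/-- the negated naming formula -/
def psf (i : ℕ) : L.Formula (Fin 1 ⊕ Unit) := (nf (2 * i) (Sum.inr ())).imp BoundedFormula.falsum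

theorem psf_inj : Function.Injective psf := by
  intro i j h
  have h2 : code (psf i) = code (psf j) := by rw [h]
  have h3 : ∀ i, code (psf i) = Nat.pair 4 (Nat.pair (Nat.pair 2 (Nat.pair (Nat.pair 0 (2 * i))
      (2 * Encodable.encode (Sum.inr () : Fin 1 ⊕ Unit)))) (Nat.pair 0 0)) := fun _ => rfl
  rw [h3, h3] at h2
  simpa [Nat.pair_eq_pair] using h2

/-- being a base element -/
def dfm : L.Formula (Fin 1 ⊕ Unit) :=
  BoundedFormula.all ((BoundedFormula.rel (bi true)
    ![Term.var (Sum.inl (Sum.inr ())), Term.var (Sum.inr 0)]).imp BoundedFormula.falsum)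

/-- being different from the parameter -/
def nefm : L.Formula (Fin 1 ⊕ Unit) :=
  (BoundedFormula.equal (Term.var (Sum.inl (Sum.inr ())))
    (Term.var (Sum.inl (Sum.inl 0)))).imp BoundedFormula.falsum

theorem psf_realize {M : Type} [L.Structure M] (i : ℕ) (v : Fin 1 ⊕ Unit → M) :
    (psf i).Realize v ↔ ¬ NN (2 * i) (v (Sum.inr ())) := by
  have h := nf_realize (2 * i) (Sum.inr () : Fin 1 ⊕ Unit) v
  exact imp_congr h Iff.rfl

theorem dfm_realize {M : Type} [L.Structure M] (v : Fin 1 ⊕ Unit → M) :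
    dfm.Realize v ↔ DM (v (Sum.inr ())) := by
  unfold dfm DM PP Formula.Realize
  simp only [BoundedFormula.Realize]
  refine forall_congr' fun w => imp_congr ?_ Iff.rfl
  have : (fun i => (((![Term.var (Sum.inl (Sum.inr ())), Term.var (Sum.inr 0)] :
      Fin 2 → L.Term ((Fin 1 ⊕ Unit) ⊕ Fin 1)) i).realize
        (Sum.elim v (Fin.snoc default w)))) = ![v (Sum.inr ()), w] := by
    funext i
    fin_cases i <;> rfl
  rw [this]

theorem nefm_realize {M : Type} [L.Structure M] (v : Fin 1 ⊕ Unit → M) :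
    nefm.Realize v ↔ v (Sum.inr ()) ≠ v (Sum.inl 0) := Iff.rfl

theorem not_sat : ¬ IsSaturated A1 := by
  intro h
  let d : X Unit := Sum.inl (Sum.inr ())
  let P : Set (L.Formula (Fin 1 ⊕ Unit)) := {φ | φ = dfm ∨ φ = nefm ∨ ∃ i, φ = psf i}
  obtain ⟨b, hb⟩ := h 1 (fun _ => d) P (by
    intro q hq
    have hi : ∃ i, psf i ∉ q := by
      by_contra hc
      push Not at hc
      exact (Set.infinite_of_injective_forall_mem psf_inj (s := (q : Set _)) hc) q.finite_toSet
    obtain ⟨i, hi⟩ := hi
    refine ⟨(Sum.inl (Sum.inl i) : X Unit), ?_⟩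
    intro φ hφ
    rcases hq hφ with rfl | rfl | ⟨j, rfl⟩
    · rw [dfm_realize]
      intro (w : X Unit) hw
      have hw' : R2 Unit true (Sum.inl (Sum.inl i)) w := hw
      exact absurd hw'.1 (by simp)
    · rw [nefm_realize]
      intro hh
      have hh' : (Sum.inl (Sum.inl i) : X Unit) = Sum.inl (Sum.inr ()) := hh
      simp at hh'
    · rw [psf_realize]
      intro hh
      have hh' : (Sum.inl (Sum.inl i) : X Unit) = el (2 * j) := (NN_iff (t := false) _ _).1 hh
      rw [el_two] at hh'
      have : i = j := Sum.inl_injective (Sum.inl_injective hh')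
      subst this
      exact hi hφ)
  have b1 := (dfm_realize _).1 (hb dfm (Or.inl rfl))
  have b2 := (nefm_realize _).1 (hb nefm (Or.inr (Or.inl rfl)))
  have b3 := fun i => (psf_realize i _).1 (hb (psf i) (Or.inr (Or.inr ⟨i, rfl⟩)))
  have b3' : ∀ i, ¬ (b : X Unit) = el (2 * i) := fun i hh =>
    b3 i ((NN_iff (t := false) (2 * i) b).2 hh)
  have b1' : ∀ w : X Unit, ¬ R2 Unit true b w := b1
  have b2' : (b : X Unit) ≠ d := b2
  revert b1' b2' b3'
  generalize (b : X Unit) = x
  intro b3' b1' b2'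
  rcases x with (i | ⟨⟩) | ⟨p, q, c⟩
  · exact b3' i (el_two i).symm
  · exact b2' rfl
  · exact b1' (Sum.inl p) ⟨rfl, rfl⟩

/-! ## The theory -/

theorem decidable_Th : DecidableTheory Th := by
  have h := computable_diag (E := Empty) (α := Empty) (es := []) (fun e => e.elim) false
    (dn := Sum.inl) Primrec.sumInl (fun m i h => (Sum.inl_injective h).ge)
    (default : Empty → Mod Empty false) (fun a => a.elim)
  obtain ⟨f, hf, hh⟩ := h
  refine ⟨f, hf, fun φ => (hh φ).trans ?_⟩
  have : Nonempty Pr := prime_Pr.1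
  have hm := model_Mod Empty
  constructor
  · intro hφ
    have : φ ∈ Th := (mem_completeTheory (M := Pr)).2 hφ
    exact Theory.models_sentence_of_mem this
  · intro hφ
    exact hφ.realize_sentence Pr

theorem strong_Pr : StrongConstr (M := Pr) (nuOf (E := Empty) Sum.inl) := by
  refine ⟨nuOf_surj ?_, ?_⟩
  · rintro (i | e)
    · exact ⟨i, rfl⟩
    · exact e.elim
  · exact computable_diag (E := Empty) (es := []) (fun e => e.elim) false Primrec.sumInl
      (fun m i h => (Sum.inl_injective h).ge) _ (fun _ => rfl)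

theorem complete_Th : Th.IsComplete := by
  have : Nonempty Pr := prime_Pr.1
  exact completeTheory.isComplete L Pr

/-- There is a complete decidable uncountably categorical theory whose prime model is strongly
autostable, with a nonsaturated countable model that has two strong constructivizations that
are not autoequivalent. -/
theorem result : ∃ T : L.Theory, T.IsComplete ∧ DecidableTheory T ∧ UncountablyCategorical T ∧
    (∃ (P : Type) (_ : L.Structure P), IsPrimeModel T P ∧ ∃ ν : ℕ → P, StrongConstr ν) ∧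
    (∀ (P : Type) [L.Structure P], IsPrimeModel T P → StronglyAutostable P) ∧
    ∃ (A : Type) (_ : L.Structure A), Countable A ∧ A ⊨ T ∧ ¬ IsSaturated A ∧
      ∃ ν μ : ℕ → A, StrongConstr ν ∧ StrongConstr μ ∧ ¬ AutoEquivalent ν μ :=
  ⟨Th, complete_Th, decidable_Th, categorical_Th, ⟨Pr, inferInstance, prime_Pr, _, strong_Pr⟩,
    fun _ _ h => prime_autostable h, A1, inferInstance, (inferInstance : Countable (X Unit)),
    model_Mod Unit, not_sat, _, _, strong1, strong2, not_auto⟩

end Pool.Agent.Results.MP_76ae7e_lc.NotInherited
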